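import Mathlib

/-!
# Project VK: definitions

The mod 2 van Kampen obstruction of a flag complex, and homology spheres over the field of two
elements.
-/

set_option autoImplicit false

open Finset

namespace Pool.Agent.H85.VK

section

variable {V : Type} [DecidableEq V]

/-- `σ` and `τ` interlace in the numbering `ν`: of any two consecutive elements of `σ ∪ τ` one is in
`σ` and the other one in `τ` (for disjoint `σ` and `τ`). -/
def Interlace (ν : V → ℕ) (σ τ : Finset V) : Prop :=
  ∀ x ∈ σ ∪ τ, ∀ y ∈ σ ∪ τ, ν x < ν y → (∀ z ∈ σ ∪ τ, ¬ (ν x < ν z ∧ ν z < ν y)) →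
    (x ∈ σ ↔ y ∈ τ)

open Classical in
/-- The van Kampen obstruction (modulo two) of the `k`-skeleton of the flag complex of `G` to
embeddings in `ℝ^{2k}` vanishes. For a numbering `ν` of the vertices let the vertices be the points
of the moment curve in `ℝ^{2k}` in this order; two disjoint simplices `σ`, `τ` of dimension `k` then
meet in one point if they interlace and do not meet otherwise. The obstruction vanishes if this
function of the pairs `{σ, τ}` is the sum of the functions which count the `τ` with `ρ ⊂ τ`, for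
disjoint simplices `σ` and `ρ` of dimensions `k` and `k - 1` (finger moves of `σ` through `ρ`);
`g σ ρ` is the multiplicity of the finger move. -/
def VanKampenZero (G : SimpleGraph V) (k : ℕ) : Prop :=
  ∃ ν : V → ℕ, Function.Injective ν ∧ ∃ g : Finset V → Finset V → ZMod 2,
    ∀ σ τ : Finset V, G.IsClique (σ : Set V) → σ.card = k + 1 → G.IsClique (τ : Set V) →
      τ.card = k + 1 → Disjoint σ τ →
      (if Interlace ν σ τ then (1 : ZMod 2) else 0) =
        ∑ v ∈ τ, g σ (τ.erase v) + ∑ v ∈ σ, g τ (σ.erase v)

end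

section

variable {W : Type} [DecidableEq W]

/-- the link of `σ` in the family `K` -/
def lnk (K : Set (Finset W)) (σ : Finset W) : Set (Finset W) :=
  {τ | Disjoint τ σ ∧ τ ∪ σ ∈ K}

/-- `f` is a cocycle on the faces with `j` vertices of the family `K` -/
def Cocycle (K : Set (Finset W)) (j : ℕ) (f : Finset W → ZMod 2) : Prop :=
  ∀ τ ∈ K, τ.card = j + 1 → ∑ v ∈ τ, f (τ.erase v) = 0

/-- `f` is a coboundary on the faces with `j` vertices of the family `K` -/
def Cobound (K : Set (Finset W)) (j : ℕ) (f : Finset W → ZMod 2) : Prop :=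
  ∃ g : Finset W → ZMod 2, ∀ τ ∈ K, τ.card = j → f τ = ∑ v ∈ τ, g (τ.erase v)

/-- `K` is a simplicial complex (with the empty face), and a homology sphere of dimension `n - 1`
over the field of two elements: the link of every face `σ` (in particular `K`, the link of the empty
face) has the reduced mod 2 cohomology of a sphere of dimension `n - 1 - |σ|`. A face with `j`
vertices has dimension `j - 1`. -/
structure IsF2Sphere (K : Set (Finset W)) (n : ℕ) : Prop where
  empty : ∅ ∈ K
  down : ∀ σ ∈ K, ∀ τ ⊆ σ, τ ∈ K
  exact : ∀ σ ∈ K, ∀ j, j + σ.card ≠ n → ∀ f, Cocycle (lnk K σ) j f → Cobound (lnk K σ) j f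
  top : ∀ σ ∈ K, ∀ j, j + σ.card = n → ∃ f₀, Cocycle (lnk K σ) j f₀ ∧ ¬ Cobound (lnk K σ) j f₀ ∧
    ∀ f, Cocycle (lnk K σ) j f → Cobound (lnk K σ) j f ∨ Cobound (lnk K σ) j fun τ => f τ + f₀ τ

end

end Pool.Agent.H85.VK
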