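import Pool.Agent.H85.VK.Sphere

/-!
# Project VK: complements of faces in homology spheres are acyclic, second part
-/

set_option autoImplicit false

open Finset

namespace Pool.Agent.H85.VK

variable {W : Type} [DecidableEq W] [Fintype W]

/-- on the facets every function is a cocycle -/
theorem IsF2Sphere.cocycle_top {K : Set (Finset W)} {n : ℕ} (h : IsF2Sphere K n)
    (f : Finset W → ZMod 2) : Cocycle K n f := by
  intro τ hτ hc
  have := h.card_le hτ
  omega

/-- if all indicator functions of facets were coboundaries, there would be no top class -/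
theorem IsF2Sphere.not_all {K : Set (Finset W)} {n : ℕ} (h : IsF2Sphere K n)
    (hall : ∀ τ ∈ K, τ.card = n → Cobound K n (ind τ)) : False := by
  classical
  obtain ⟨f₀, _, h1, _⟩ := h.top ∅ h.empty n (by simp)
  rw [lnk_empty] at h1
  apply h1
  refine (Cobound.sum (univ.filter fun τ => τ ∈ K ∧ τ.card = n ∧ f₀ τ ≠ 0) ind
    fun τ hτ => ?_).congr fun τ hτ hc => ?_
  · rw [mem_filter] at hτ
    exact hall τ hτ.2.1 hτ.2.2.1
  · unfold ind
    rw [sum_ite_eq]
    by_cases h2 : f₀ τ = 0
    · rw [if_neg, h2]
      simp [h2]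
    · rw [if_pos]
      · have h3 : ∀ x : ZMod 2, x ≠ 0 → x = 1 := by decide
        exact (h3 _ h2).symm
      · simp [h2, hτ, hc]

/-- two functions on the facets which are not coboundaries are cohomologous -/
theorem IsF2Sphere.add_cobound {K : Set (Finset W)} {n : ℕ} (h : IsF2Sphere K n)
    {f g : Finset W → ZMod 2} (hf : ¬ Cobound K n f) (hg : ¬ Cobound K n g) :
    Cobound K n fun τ => f τ + g τ := by
  obtain ⟨f₀, _, _, h2⟩ := h.top ∅ h.empty n (by simp)
  rw [lnk_empty] at h2
  have h3 := (h2 f (h.cocycle_top f)).resolve_left hf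
  have h4 := (h2 g (h.cocycle_top g)).resolve_left hg
  refine (h3.add h4).congr fun τ _ _ => ?_
  have h5 := z2_self (f₀ τ)
  linear_combination h5

omit [Fintype W] in
theorem Cobound.of_add {K : Set (Finset W)} {j : ℕ} {f g : Finset W → ZMod 2}
    (h : Cobound K j fun τ => f τ + g τ) (hf : Cobound K j f) : Cobound K j g := by
  refine (h.add hf).congr fun τ _ _ => ?_
  have h5 := z2_self (f τ)
  linear_combination h5

/-- the indicator functions of facets are cohomologous -/
theorem IsF2Sphere.facets {n : ℕ} : ∀ {K : Set (Finset W)}, IsF2Sphere K n →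
    ∀ τ ∈ K, τ.card = n → ∀ τ' ∈ K, τ'.card = n → Cobound K n (ind τ) → Cobound K n (ind τ') := by
  classical
  induction n with
  | zero =>
    intro K h τ hτ hc τ' hτ' hc' h1
    rw [card_eq_zero] at hc hc'
    rw [hc']
    rwa [hc] at h1
  | succ n ih =>
    intro K h τ hτ hc τ' hτ' hc' h1
    -- the facets containing a vertex
    have key : ∀ v, ∀ ρ ∈ K, ρ.card = n + 1 → v ∈ ρ → ∀ ρ' ∈ K, ρ'.card = n + 1 → v ∈ ρ' →
        Cobound K (n + 1) (ind ρ) → Cobound K (n + 1) (ind ρ') := by
      intro v ρ hρ hρc hv ρ' hρ' hρc' hv' h2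
      have hvK : {v} ∈ K := h.down ρ hρ _ (singleton_subset_iff.2 hv)
      have hL : IsF2Sphere (VK.lnk K {v}) n := h.lnk hvK (by simp)
      have e1 : ρ.erase v ∈ VK.lnk K {v} :=
        mem_lnk_single.2 ⟨notMem_erase v ρ, by rwa [insert_erase hv]⟩
      have e2 : ρ'.erase v ∈ VK.lnk K {v} :=
        mem_lnk_single.2 ⟨notMem_erase v ρ', by rwa [insert_erase hv']⟩
      have c1 : (ρ.erase v).card = n := by rw [card_erase_of_mem hv, hρc]; rfl
      have c2 : (ρ'.erase v).card = n := by rw [card_erase_of_mem hv', hρc']; rfl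
      have h3 : Cobound (VK.lnk K {v}) n fun τ => ind (ρ.erase v) τ + ind (ρ'.erase v) τ := by
        by_cases h4 : Cobound (VK.lnk K {v}) n (ind (ρ.erase v))
        · exact h4.add (ih hL _ e1 c1 _ e2 c2 h4)
        · exact hL.add_cobound h4 fun h5 => h4 (ih hL _ e2 c2 _ e1 c1 h5)
      have h4 := h3.of_lnk
      refine Cobound.of_add (f := ind ρ) ?_ h2
      refine h4.congr fun σ hσ hσc => ?_
      have aux : ∀ α : Finset W, v ∈ α → (if v ∈ σ then ind (α.erase v) (σ.erase v) else 0) =
          ind α σ := by
        intro α hα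
        unfold ind
        by_cases h5 : v ∈ σ
        · rw [if_pos h5]
          by_cases h6 : σ = α
          · rw [if_pos h6, if_pos (by rw [h6])]
          · rw [if_neg h6, if_neg]
            intro h7
            apply h6
            rw [← insert_erase h5, ← insert_erase hα, h7]
        · rw [if_neg h5, if_neg]
          rintro rfl
          exact h5 hα
      rw [← aux ρ hv, ← aux ρ' hv']
      split_ifs <;> simp
    rcases Nat.eq_zero_or_pos n with h0 | hpos
    · subst h0
      -- dimension zero: a coboundary is constant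
      obtain ⟨v, hv⟩ := card_eq_one.1 (show τ.card = 1 from hc)
      obtain ⟨v', hv'⟩ := card_eq_one.1 (show τ'.card = 1 from hc')
      have h2 : τ' = τ := by
        by_contra hne
        obtain ⟨g, hg⟩ := h1
        have h3 := hg τ hτ hc
        have h4 := hg τ' hτ' hc'
        unfold ind at h3 h4
        rw [if_pos rfl, hv, sum_singleton, erase_singleton] at h3
        rw [if_neg hne, hv', sum_singleton, erase_singleton] at h4
        rw [← h4] at h3
        exact one_ne_zero h3
      rw [h2]
      exact h1
    · -- the function on the vertices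
      let f : Finset W → ZMod 2 := fun α =>
        if ∃ v, α = {v} ∧ ∃ ρ ∈ K, ρ.card = n + 1 ∧ v ∈ ρ ∧ Cobound K (n + 1) (ind ρ) then 1 else 0
      have hf : ∀ v, ∀ ρ ∈ K, ρ.card = n + 1 → v ∈ ρ →
          f {v} = if Cobound K (n + 1) (ind ρ) then 1 else 0 := by
        intro v ρ hρ hρc hv
        by_cases h2 : Cobound K (n + 1) (ind ρ)
        · rw [if_pos h2]
          exact if_pos ⟨v, rfl, ρ, hρ, hρc, hv, h2⟩
        · rw [if_neg h2]
          refine if_neg ?_
          rintro ⟨w, hw, ρ', hρ', hρc', hv', h3⟩
          rw [singleton_inj] at hw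
          subst hw
          exact h2 (key v ρ' hρ' hρc' hv' ρ hρ hρc hv h3)
      have hcoc : Cocycle K 1 f := by
        intro σ hσ hσc
        obtain ⟨a, b, hab, rfl⟩ := card_eq_two.1 hσc
        obtain ⟨ρ, hρ, hσρ, hρc⟩ := h.exists_facet hσ
        have ha : a ∈ ρ := hσρ (by simp)
        have hb : b ∈ ρ := hσρ (by simp)
        rw [sum_pair hab]
        have e1 : ({a, b} : Finset W).erase a = {b} := by
          rw [erase_insert (by simpa using hab)]
        have e2 : ({a, b} : Finset W).erase b = {a} := by
          rw [pair_comm, erase_insert (by simpa using hab.symm)]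
        rw [e1, e2, hf a ρ hρ hρc ha, hf b ρ hρ hρc hb]
        exact z2_self _
      have hex := h.exact ∅ h.empty 1 (by simp; omega) f
      rw [lnk_empty] at hex
      obtain ⟨g, hg⟩ := hex hcoc
      have hconst : ∀ v, {v} ∈ K → f {v} = g ∅ := by
        intro v hv
        rw [hg {v} hv (card_singleton v), sum_singleton, erase_singleton]
      have hne : τ.Nonempty := by
        rw [← card_pos]
        omega
      have hne' : τ'.Nonempty := by
        rw [← card_pos]
        omega
      obtain ⟨v, hv⟩ := hne
      obtain ⟨v', hv'⟩ := hne'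
      have h2 := hf v τ hτ hc hv
      have h3 := hf v' τ' hτ' hc' hv'
      rw [hconst v (h.down τ hτ _ (singleton_subset_iff.2 hv)), if_pos h1] at h2
      rw [hconst v' (h.down τ' hτ' _ (singleton_subset_iff.2 hv')), h2] at h3
      by_contra h4
      rw [if_neg h4] at h3
      exact one_ne_zero h3

/-- the indicator function of a facet is not a coboundary -/
theorem IsF2Sphere.not_cobound {K : Set (Finset W)} {n : ℕ} (h : IsF2Sphere K n) {τ : Finset W}
    (hτ : τ ∈ K) (hc : τ.card = n) : ¬ Cobound K n (ind τ) := fun h1 =>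
  h.not_all fun τ' hτ' hc' => h.facets τ hτ hc τ' hτ' hc' h1

/-- the complement of a vertex of a sphere is acyclic -/
theorem IsF2Sphere.acyc_single {K : Set (Finset W)} {n : ℕ} (h : IsF2Sphere K n) {v : W}
    (hv : {v} ∈ K) : Acyc (rst K {v}) := by
  intro j f hf
  obtain ⟨τ₀, hτ₀, hvτ, hc₀⟩ := h.exists_facet hv
  rw [singleton_subset_iff] at hvτ
  obtain ⟨n, rfl⟩ : ∃ m, n = m + 1 := by
    have := card_pos.2 ⟨v, hvτ⟩
    exact ⟨n - 1, by omega⟩
  have hL : IsF2Sphere (VK.lnk K {v}) n := h.lnk hv (by simp)
  have hfl : Cocycle (VK.lnk K {v}) j f := hf.lnk h.down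
  -- the restriction to the link is a coboundary
  have h1 : Cobound (VK.lnk K {v}) j f := by
    rcases eq_or_ne j n with rfl | hj
    · by_contra hcon
      have e1 : τ₀.erase v ∈ VK.lnk K {v} :=
        mem_lnk_single.2 ⟨notMem_erase v τ₀, by rwa [insert_erase hvτ]⟩
      have c1 : (τ₀.erase v).card = j := by rw [card_erase_of_mem hvτ, hc₀]; rfl
      obtain ⟨m, hm⟩ := hL.add_cobound hcon (hL.not_cobound e1 c1)
      refine h.not_cobound hτ₀ hc₀ ⟨ext v m f, fun τ hτ hc => ?_⟩
      by_cases hvt : v ∈ τ
      · rw [ext_sum_mem m _ hvt, ← hm _ (mem_lnk_single.2 ⟨notMem_erase v τ, by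
          rwa [insert_erase hvt]⟩) (by rw [card_erase_of_mem hvt, hc]; rfl)]
        rw [← add_assoc, z2_self, zero_add]
        unfold ind
        by_cases h6 : τ = τ₀
        · rw [if_pos h6, if_pos (by rw [h6])]
        · rw [if_neg h6, if_neg]
          intro h7
          apply h6
          rw [← insert_erase hvt, ← insert_erase hvτ, h7]
      · rw [ext_sum_notMem m _ hvt, hf τ ⟨hτ, disjoint_singleton_right.2 hvt⟩ hc]
        unfold ind
        rw [if_neg]
        rintro rfl
        exact hvt hvτ
    · have h2 := hL.exact ∅ hL.empty j (by simpa using hj) f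
      rw [lnk_empty] at h2
      exact h2 hfl
  obtain ⟨m, hm⟩ := extend_cocycle hf h1
  rcases eq_or_ne j (n + 1) with rfl | hj
  · by_cases h3 : Cobound K (n + 1) (ext v m f)
    · exact h3.of_ext
    · obtain ⟨g, hg⟩ := h.add_cobound h3 (h.not_cobound hτ₀ hc₀)
      refine ⟨g, fun τ hτ hc => ?_⟩
      rw [← hg τ hτ.1 hc]
      have h4 : v ∉ τ := disjoint_singleton_right.1 hτ.2
      have h5 : τ ≠ τ₀ := by
        rintro rfl
        exact h4 hvτ
      show f τ = ext v m f τ + ind τ₀ τ
      unfold ext ind
      rw [if_neg h4, if_neg h5, add_zero]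
  · have h2 := h.exact ∅ h.empty j (by simpa using hj) (ext v m f)
    rw [lnk_empty] at h2
    exact (h2 hm).of_ext

/-- **The complement of a nonempty face of a sphere is acyclic.** -/
theorem IsF2Sphere.acyc_rst {n : ℕ} : ∀ {K : Set (Finset W)}, IsF2Sphere K n →
    ∀ A ∈ K, A.Nonempty → Acyc (rst K A) := by
  induction n with
  | zero =>
    intro K h A hA hne
    have := h.card_le hA
    have := card_pos.2 hne
    omega
  | succ n ih =>
    intro K h A
    induction A using Finset.induction_on with
    | empty => exact fun _ hne => absurd hne (by simp)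
    | insert v A hvA ihA =>
      intro hA _
      have hvK : {v} ∈ K := h.down _ hA _ (by simp)
      rcases A.eq_empty_or_nonempty with rfl | hne
      · exact h.acyc_single hvK
      · have hAK : A ∈ K := h.down _ hA _ (subset_insert v A)
        have h1 := ihA hAK hne
        have hL : IsF2Sphere (VK.lnk K {v}) n := h.lnk hvK (by simp)
        have h2 := ih hL A (mem_lnk_single.2 ⟨hvA, hA⟩) hne
        have e1 : VK.lnk (rst K A) {v} = rst (VK.lnk K {v}) A := by
          ext τ
          unfold rst
          rw [mem_lnk_single, Set.mem_ofPred_eq, Set.mem_ofPred_eq, mem_lnk_single,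
            disjoint_insert_left]
          tauto
        have e2 : rst K (insert v A) = rst (rst K A) {v} := by
          ext τ
          unfold rst
          rw [Set.mem_ofPred_eq, Set.mem_ofPred_eq, Set.mem_ofPred_eq, disjoint_insert_right,
            disjoint_singleton_right]
          tauto
        rw [e2]
        rw [← e1] at h2
        refine acyc_rst_single ?_ h1 h2
        intro σ hσ τ hτ
        exact ⟨h.down σ hσ.1 τ hτ, disjoint_of_subset_left hτ hσ.2⟩

end Pool.Agent.H85.VK
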