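import Pool.Agent.H85.VK.Order
import Pool.Agent.H85.VK.Sphere2

/-!
# Project VK: the deleted join of a homology sphere, and the van Kampen obstruction of subcomplexes
-/

set_option autoImplicit false

open Finset

namespace Pool.Agent.H85.VK

variable {W : Type} [DecidableEq W]

/-- pairs of disjoint faces -/
def JP (K : Set (Finset W)) (σ ρ : Finset W) : Prop := σ ∈ K ∧ ρ ∈ K ∧ Disjoint σ ρ

omit [DecidableEq W] in
theorem JP.symm {K : Set (Finset W)} {σ ρ : Finset W} (h : JP K σ ρ) : JP K ρ σ :=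
  ⟨h.2.1, h.1, h.2.2.symm⟩

theorem JP.erase {K : Set (Finset W)} (hd : ∀ σ ∈ K, ∀ τ ⊆ σ, τ ∈ K) (σ ρ : Finset W)
    (h : JP K σ ρ) : (∀ v ∈ σ, JP K (σ.erase v) ρ) ∧ ∀ v ∈ ρ, JP K σ (ρ.erase v) :=
  ⟨fun v hv => ⟨hd σ h.1 _ (erase_subset v σ), h.2.1, (disj_erase σ ρ h.2.2).1 v hv⟩,
    fun v hv => ⟨h.1, hd ρ h.2.1 _ (erase_subset v ρ), (disj_erase σ ρ h.2.2).2 v hv⟩⟩

variable [Fintype W]

/-- one step: clear the pairs whose first face has `p` vertices -/
private theorem join_step {K : Set (Finset W)} {n : ℕ} (h : IsF2Sphere K n) (m p : ℕ)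
    (hm : n < m) (F : Finset W → Finset W → ZMod 2)
    (hF : ∀ σ ρ, JP K σ ρ → σ.card + ρ.card = m + 1 → dP F σ ρ = 0)
    (h0 : ∀ σ ρ, JP K σ ρ → σ.card + ρ.card = m → σ.card < p → F σ ρ = 0) :
    ∃ g : Finset W → Finset W → ZMod 2, ∀ σ ρ, JP K σ ρ → σ.card + ρ.card = m →
      σ.card < p + 1 → F σ ρ = dP g σ ρ := by
  rcases Nat.eq_zero_or_pos p with rfl | hp
  · refine ⟨fun _ _ => 0, fun σ ρ hσρ hc hlt => ?_⟩
    have := h.card_le hσρ.2.1
    omega
  have key : ∀ σ : Finset W, ∃ gs : Finset W → ZMod 2, σ ∈ K → σ.card = p → ∀ ρ ∈ rst K σ,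
      σ.card + ρ.card = m → F σ ρ = ∑ v ∈ ρ, gs (ρ.erase v) := by
    intro σ
    by_cases hσ : σ ∈ K ∧ σ.card = p ∧ p ≤ m
    · obtain ⟨hσ, hσc, hpm⟩ := hσ
      have hne : σ.Nonempty := by
        rw [← card_pos]
        omega
      obtain ⟨gs, hgs⟩ := h.acyc_rst σ hσ hne (m - p) (F σ) fun ρ hρ hρc => by
        have hJ : JP K σ ρ := ⟨hσ, hρ.1, hρ.2.symm⟩
        have h1 := hF σ ρ hJ (by omega)
        unfold dP at h1
        rw [sum_eq_zero, zero_add] at h1
        · exact h1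
        · intro v hv
          have hcv : (σ.erase v).card = p - 1 := by rw [card_erase_of_mem hv, hσc]
          refine h0 _ _ ((JP.erase h.down σ ρ hJ).1 v hv) ?_ ?_
          · omega
          · omega
      exact ⟨gs, fun _ _ ρ hρ hc => hgs ρ hρ (by omega)⟩
    · refine ⟨fun _ => 0, fun hσ1 hσ2 ρ _ hc => ?_⟩
      exact absurd ⟨hσ1, hσ2, by omega⟩ hσ
  choose gs hgs using key
  refine ⟨fun σ ρ => if σ.card = p then gs σ ρ else 0, fun σ ρ hσρ hc hlt => ?_⟩
  unfold dP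
  have e1 : ∑ v ∈ σ, (if (σ.erase v).card = p then gs (σ.erase v) ρ else 0) = 0 := by
    refine sum_eq_zero fun v hv => if_neg ?_
    have := card_pos.2 ⟨v, hv⟩
    rw [card_erase_of_mem hv]
    omega
  rw [e1, zero_add]
  by_cases hp2 : σ.card = p
  · simp only [if_pos hp2]
    exact hgs σ hσρ.1 hp2 ρ ⟨hσρ.2.1, hσρ.2.2.symm⟩ hc
  · simp only [if_neg hp2, sum_const_zero]
    exact h0 σ ρ hσρ hc (by omega)

/-- **The deleted join of a sphere has no cohomology above the top dimension of the sphere.** -/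
theorem join_vanish {K : Set (Finset W)} {n : ℕ} (h : IsF2Sphere K n) (m : ℕ)
    (hm : n < m) (f : Finset W → Finset W → ZMod 2)
    (hf : ∀ σ ρ, JP K σ ρ → σ.card + ρ.card = m + 1 → dP f σ ρ = 0) :
    ∃ g : Finset W → Finset W → ZMod 2, ∀ σ ρ, JP K σ ρ → σ.card + ρ.card = m →
      f σ ρ = dP g σ ρ := by
  have key : ∀ p, ∃ g : Finset W → Finset W → ZMod 2, ∀ σ ρ, JP K σ ρ → σ.card + ρ.card = m →
      σ.card < p → f σ ρ = dP g σ ρ := by
    intro p
    induction p with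
    | zero => exact ⟨fun _ _ => 0, fun σ ρ _ _ h => absurd h (by omega)⟩
    | succ p ih =>
      obtain ⟨g, hg⟩ := ih
      obtain ⟨g', hg'⟩ := join_step h m p hm (fun σ ρ => f σ ρ + dP g σ ρ)
        (fun σ ρ hJ hc => by
          rw [dP_add, hf σ ρ hJ hc, zero_add]
          exact dP_dP g σ ρ)
        (fun σ ρ hJ hc hlt => by
          rw [hg σ ρ hJ hc hlt]
          exact zmod2_add_self _)
      refine ⟨fun σ ρ => g σ ρ + g' σ ρ, fun σ ρ hJ hc hlt => ?_⟩
      have h1 := hg' σ ρ hJ hc hlt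
      rw [dP_add, ← h1]
      have h2 := zmod2_add_self (dP g σ ρ)
      linear_combination -h2
  obtain ⟨g, hg⟩ := key (m + 1)
  exact ⟨g, fun σ ρ hJ hc => hg σ ρ hJ hc (by omega)⟩

/-- the universal obstruction class is zero in the cohomology of the deleted join -/
theorem obstruction_zero {K : Set (Finset W)} {n : ℕ} (h : IsF2Sphere K n) {ν : W → ℕ}
    (hν : Function.Injective ν) : ∀ d m : ℕ, n < m → m + d = 2 * n + 1 →
    ∃ g s : Finset W → Finset W → ZMod 2, ∀ σ ρ, JP K σ ρ → σ.card + ρ.card = m →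
      eP ν σ ρ = dP g σ ρ + (s σ ρ + s ρ σ) := by
  intro d
  induction d with
  | zero =>
    intro m hm hd
    refine ⟨fun _ _ => 0, fun _ _ => 0, fun σ ρ hJ hc => ?_⟩
    have h1 := h.card_le hJ.1
    have h2 := h.card_le hJ.2.1
    omega
  | succ d ih =>
    intro m hm hd
    obtain ⟨g, s, hgs⟩ := ih (m + 1) (by omega) (by omega)
    obtain ⟨g', hg'⟩ := join_vanish h m hm (fun σ ρ => eP ν σ ρ + (g σ ρ + g ρ σ))
      (fun σ ρ hJ hc => by
        rw [dP_add, dP_add, dP_sw g]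
        have e1 : dP (fun a b => eP ν a b) σ ρ = eP ν σ ρ + eP ν ρ σ := dP_eP hν hJ.2.2
        rw [e1, hgs σ ρ hJ hc, hgs ρ σ hJ.symm (by omega)]
        have h1 := zmod2_add_self (dP g σ ρ)
        have h2 := zmod2_add_self (dP g ρ σ)
        have h3 := zmod2_add_self (s σ ρ)
        have h4 := zmod2_add_self (s ρ σ)
        have e2 : dP (fun a b => g a b) σ ρ = dP g σ ρ := rfl
        rw [e2]
        linear_combination h1 + h2 + h3 + h4)
    refine ⟨g', g, fun σ ρ hJ hc => ?_⟩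
    rw [← hg' σ ρ hJ hc]
    have h2 := zmod2_add_self (g σ ρ)
    have h3 := zmod2_add_self (g ρ σ)
    linear_combination -h2 - h3

open Classical in
/-- **Subcomplexes of spheres have vanishing van Kampen obstruction.** -/
theorem vanKampen_of_sphere {K : Set (Finset W)} {k : ℕ} (h : IsF2Sphere K (2 * k + 1))
    {ν : W → ℕ} (hν : Function.Injective ν) : ∃ g : Finset W → Finset W → ZMod 2,
    ∀ σ ∈ K, ∀ τ ∈ K, σ.card = k + 1 → τ.card = k + 1 → Disjoint σ τ →
      (if Interlace ν σ τ then (1 : ZMod 2) else 0) =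
        ∑ v ∈ τ, g σ (τ.erase v) + ∑ v ∈ σ, g τ (σ.erase v) := by
  obtain ⟨g, s, hgs⟩ := obstruction_zero h hν (2 * k + 1) (2 * k + 2) (by omega) (by omega)
  refine ⟨fun σ ρ => g σ ρ + g ρ σ, fun σ hσ τ hτ h1 h2 hd => ?_⟩
  have hne : (σ ∪ τ).Nonempty := by
    rw [← card_pos, card_union_of_disjoint hd]
    omega
  rw [← eP_add_swap hν hd hne, hgs σ τ ⟨hσ, hτ, hd⟩ (by omega),
    hgs τ σ ⟨hτ, hσ, hd.symm⟩ (by omega)]
  simp only [dP, sum_add_distrib]
  have h8 := zmod2_add_self (s σ τ)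
  have h9 := zmod2_add_self (s τ σ)
  linear_combination h8 + h9

end Pool.Agent.H85.VK
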