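import Pool.Agent.H85.VK.Block
import Pool.Agent.H85.VK.Join
import Pool.Agent.H4.Singer.Core
import Pool.Agent.H4.Singer.VanMain

/-!
# Project VK: the main theorem
-/

set_option autoImplicit false
set_option linter.unusedSectionVars false

open Finset

namespace Pool.Agent.H85.VK

open Pool.Agent.H4.Singer Pool.Agent.H4.Singer2

variable {V : Type} [DecidableEq V] [Fintype V] {k : ℕ}

/-- the coloured graph of a colouring -/
def colG (G : SimpleGraph V) (C : G.Coloring (Fin (k + 1))) : ColGraph V (Fin (k + 1)) where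
  adj := G.Adj
  symm _ _ h := h.symm
  col := C
  ne _ _ h := C.valid h

theorem colG_cl (G : SimpleGraph V) (C : G.Coloring (Fin (k + 1))) (σ : Finset V) :
    (colG G C).Cl σ ↔ G.IsClique (σ : Set V) := by
  constructor
  · intro h u hu v hv huv
    exact h u hu v hv huv
  · intro h u hu v hv huv
    exact h hu hv huv

open Classical in
/-- the obstruction vanishes for every numbering if it vanishes for one -/
theorem vanKampen_all {G : SimpleGraph V} (h : VanKampenZero G k) {ν' : V → ℕ}
    (hν' : Function.Injective ν') : ∃ g : Finset V → Finset V → ZMod 2,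
    ∀ σ τ : Finset V, G.IsClique (σ : Set V) → σ.card = k + 1 → G.IsClique (τ : Set V) →
      τ.card = k + 1 → Disjoint σ τ →
      (if Interlace ν' σ τ then (1 : ZMod 2) else 0) =
        ∑ v ∈ τ, g σ (τ.erase v) + ∑ v ∈ σ, g τ (σ.erase v) := by
  obtain ⟨ν, hν, g, hg⟩ := h
  obtain ⟨H, hH⟩ := interlace_change hν hν' k
  refine ⟨fun σ ρ => g σ ρ + H σ ρ, fun σ τ h1 h2 h3 h4 h5 => ?_⟩
  have h6 := hg σ τ h1 h2 h3 h4 h5
  have h7 := hH σ τ h5 h2 h4
  simp only [sum_add_distrib]
  rw [h7, h6]
  ring

/-- **The stress theorem.** The maximal simplices of a `(k + 1)`-coloured flag complex with vanishing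
van Kampen obstruction carry no stress with generic parameters. -/
theorem stressFree_vk (G : SimpleGraph V) (C : G.Coloring (Fin (k + 1)))
    (h : VanKampenZero G k) :
    StressFree (fun v => (xv v : RF V)) (clq (colG G C) univ (k + 1)) := by
  classical
  intro z hz
  obtain ⟨ν, hν, hb⟩ := exists_block (colG G C)
  obtain ⟨g, hg⟩ := vanKampen_all h hν
  have hs1 : ∀ κ ∈ rbw (colG G C), ∀ c,
      ∑ v ∈ cls (colG G C) c, z (img (Function.update κ c v)) = 0 := by
    intro κ hκ c
    have h1 := stress_slice (Γ := colG G C) hz.supp (fun _ => 1)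
      (fun τ => by simpa using hz.sum τ) hκ c
    simpa using h1
  have hs2 : ∀ κ ∈ rbw (colG G C), ∀ c,
      ∑ v ∈ cls (colG G C) c, xv v * z (img (Function.update κ c v)) = 0 := by
    intro κ hκ c
    exact stress_slice (Γ := colG G C) hz.supp (fun v => (xv v : RF V)) hz.wsum hκ c
  have hq := quad_identity (colG G C) hν (fun v => (xv v : RF V)) (fun κ => z (img κ)) hs1
  rw [quad_zero (colG G C) ν (fun v => (xv v : RF V)) (fun κ => z (img κ)) hs1 hs2
    (fun σ ρ => ZMod.castHom (dvd_refl 2) (RF V) (g σ ρ)) ?_] at hq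
  · -- the sum over the tuples as a sum over the simplices
    have h2 : ∑ S ∈ (rbw (colG G C)).image img, (∏ v ∈ S, (xv v : RF V)) * z S ^ 2 = 0 := by
      rw [sum_image (img_injOn (colG G C)), hq]
      exact sum_congr rfl fun κ hκ => by rw [prod_img hκ]
    funext S
    by_contra hne
    have hS := hz.supp S hne
    obtain ⟨κ, hκ, hκS⟩ := exists_rbw (Γ := colG G C) (φ := S) (by rwa [Fintype.card_fin])
    exact hne (sum_prod_sq _ z h2 S (mem_image.2 ⟨κ, hκ, hκS⟩))
  · intro κ hκ κ' hκ' hZ hZ' hne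
    rw [interlace_sum hν hb hκ hκ' hne (RF V)]
    have hc1 := mem_clq.1 (hz.supp _ hZ)
    have hc2 := mem_clq.1 (hz.supp _ hZ')
    have h3 := hg (img κ) (img κ') ((colG_cl G C _).1 hc1.2.1) hc1.2.2
      ((colG_cl G C _).1 hc2.2.1) hc2.2.2 (img_disjoint hκ hκ' hne)
    have h4 := congrArg (ZMod.castHom (dvd_refl 2) (RF V)) h3
    rw [sum_img hκ', sum_img hκ] at h4
    simp only [img_erase hκ', img_erase hκ, map_add, map_sum] at h4
    rw [← h4]
    split_ifs
    · rw [map_one]
    · rw [map_zero]

/-- **The main theorem.** -/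
theorem l2_vk (G : SimpleGraph V) (hG : G.Colorable (k + 1)) (h : VanKampenZero G k) (i : ℕ)
    (hi : k < i) : L2HomologyZero G i := by
  obtain ⟨C⟩ := hG
  refine core G (colG G C) (fun _ _ => Iff.rfl) (fun v => (xv v : RF V)) i ?_
  have hcard : ∀ σ, (colG G C).Cl σ → σ.card ≤ k + 1 := by
    intro σ hσ
    have h1 : Set.InjOn (colG G C).col (σ : Set V) := by
      intro u hu v hv huv
      by_contra hne
      exact (colG G C).ne u v (hσ u hu v hv hne) huv
    have h2 := card_le_card_of_injOn (colG G C).col (fun _ _ => mem_univ _) h1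
    rwa [card_univ, Fintype.card_fin] at h2
  have h1 := van_join_sf (colG G C) (fun v => (xv v : RF V)) ∅ univ (by simp) 1 le_rfl
    (fun j hj => van_empty (colG G C) _ j hj) (k + 1) (by omega) (fun σ _ hσ => hcard σ hσ)
    (fun β hβ v _ => by
      obtain ⟨κ, hκ, rfl⟩ := exists_rbw (Γ := colG G C) (φ := β) (by rwa [Fintype.card_fin])
      exact ⟨κ ((colG G C).col v), mem_image_of_mem κ (mem_univ _),
        mem_rbw.1 hκ _⟩)
    (stressFree_vk G C h) i (by omega)
  rwa [empty_union] at h1

/-- **Subcomplexes of homology spheres.** -/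
theorem vanKampenZero_of_sphere (G : SimpleGraph V) {W : Type} [DecidableEq W] [Fintype W]
    {K : Set (Finset W)} (hK : IsF2Sphere K (2 * k + 1)) (φ : V → W)
    (hφ : Function.Injective φ) (h : ∀ σ : Finset V, G.IsClique (σ : Set V) → σ.image φ ∈ K) :
    VanKampenZero G k := by
  classical
  obtain ⟨g, hg⟩ := vanKampen_of_sphere hK (ν := fun w => (Fintype.equivFin W w : ℕ))
    (fun a b hab => (Fintype.equivFin W).injective (Fin.ext hab))
  refine ⟨fun v => (Fintype.equivFin W (φ v) : ℕ), fun a b hab =>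
    hφ ((Fintype.equivFin W).injective (Fin.ext hab)), fun σ ρ => g (σ.image φ) (ρ.image φ),
    fun σ τ h1 h2 h3 h4 h5 => ?_⟩
  have h6 := hg (σ.image φ) (h σ h1) (τ.image φ) (h τ h3)
    (by rw [card_image_of_injective _ hφ, h2]) (by rw [card_image_of_injective _ hφ, h4])
    ((disjoint_image hφ).2 h5)
  rw [sum_image fun a _ b _ hab => hφ hab, sum_image fun a _ b _ hab => hφ hab] at h6
  simp only [← image_erase hφ] at h6
  rw [← h6]
  refine if_congr ?_ rfl rfl
  unfold Interlace
  rw [← image_union]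
  constructor
  · intro hI x hx y hy hxy hc
    rw [mem_image] at hx hy
    obtain ⟨a, ha, rfl⟩ := hx
    obtain ⟨b, hb, rfl⟩ := hy
    rw [hφ.mem_finset_image, hφ.mem_finset_image]
    exact hI a ha b hb hxy fun z hz => hc (φ z) (mem_image_of_mem φ hz)
  · intro hI x hx y hy hxy hc
    have h7 := hI (φ x) (mem_image_of_mem φ hx) (φ y) (mem_image_of_mem φ hy) hxy fun z hz => by
      rw [mem_image] at hz
      obtain ⟨c, hc', rfl⟩ := hz
      exact hc c hc'
    rwa [hφ.mem_finset_image, hφ.mem_finset_image] at h7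

end Pool.Agent.H85.VK
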