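import Pool.Agent.H85.VK.Alt

/-!
# Project VK: cochains on pairs of disjoint sets
-/

set_option autoImplicit false

open Finset

namespace Pool.Agent.H85.VK

variable {V : Type} [DecidableEq V]

theorem zmod2_add_self (x : ZMod 2) : x + x = 0 := by
  revert x
  decide

theorem zmod2_eq_of_add {x y : ZMod 2} (h : x + y = 0) : x = y := by
  revert x y
  decide

omit [DecidableEq V] in
theorem altP_congr {ν : V → ℕ} {χ χ' : V → Bool} {b : Bool} {P : Finset V}
    (h : ∀ x ∈ P, χ x = χ' x) (hP : AltP ν χ b P) : AltP ν χ' b P := by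
  refine ⟨fun x hx y hy hxy hc => ?_, fun x hx hm => ?_⟩
  · rw [← h x hx, ← h y hy]
    exact hP.1 x hx y hy hxy hc
  · rw [← h x hx]
    exact hP.2 x hx hm

omit [DecidableEq V] in
theorem altF_congr {ν : V → ℕ} {χ χ' : V → Bool} {b : Bool} {P : Finset V}
    (h : ∀ x ∈ P, χ x = χ' x) : altF ν χ b P = altF ν χ' b P := by
  unfold altF
  by_cases hP : AltP ν χ b P
  · rw [if_pos hP, if_pos (altP_congr h hP)]
  · rw [if_neg hP, if_neg fun h' => hP (altP_congr (fun x hx => (h x hx).symm) h')]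

omit [DecidableEq V] in
private theorem altP_not {ν : V → ℕ} {χ : V → Bool} {b : Bool} {P : Finset V}
    (hP : AltP ν χ b P) : AltP ν (fun x => !(χ x)) (!b) P := by
  refine ⟨fun x hx y hy hxy hc => ?_, fun x hx hm => ?_⟩
  · show (!(χ y)) = !(!(χ x))
    rw [hP.1 x hx y hy hxy hc]
  · show (!(χ x)) = !b
    rw [hP.2 x hx hm]

omit [DecidableEq V] in
theorem altF_not (ν : V → ℕ) (χ : V → Bool) (b : Bool) (P : Finset V) :
    altF ν (fun x => !(χ x)) (!b) P = altF ν χ b P := by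
  unfold altF
  by_cases hP : AltP ν χ b P
  · rw [if_pos hP, if_pos (altP_not hP)]
  · rw [if_neg hP, if_neg]
    intro h'
    apply hP
    have h1 := altP_not h'
    simp only [Bool.not_not] at h1
    exact h1

/-- the coboundary of a function on pairs -/
def dP (f : Finset V → Finset V → ZMod 2) : Finset V → Finset V → ZMod 2 :=
  fun σ ρ => ∑ v ∈ σ, f (σ.erase v) ρ + ∑ v ∈ ρ, f σ (ρ.erase v)

theorem dP_add (f g : Finset V → Finset V → ZMod 2) (σ ρ : Finset V) :
    dP (fun a b => f a b + g a b) σ ρ = dP f σ ρ + dP g σ ρ := by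
  simp only [dP, sum_add_distrib]
  ring

theorem dP_sw (f : Finset V → Finset V → ZMod 2) (σ ρ : Finset V) :
    dP (fun a b => f b a) σ ρ = dP f ρ σ := by
  simp only [dP]
  rw [add_comm]

/-- double removal -/
theorem sum_erase_erase (s : Finset V) (f : Finset V → ZMod 2) :
    ∑ v ∈ s, ∑ u ∈ s.erase v, f ((s.erase v).erase u) = 0 := by
  rw [sum_sigma']
  refine sum_involution (fun p _ => ⟨p.2, p.1⟩) ?_ ?_ ?_ ?_
  · rintro ⟨v, u⟩ _
    simp only
    rw [erase_right_comm]
    exact zmod2_add_self _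
  · rintro ⟨v, u⟩ h _ heq
    simp only [mem_sigma, mem_erase] at h
    simp only [Sigma.mk.injEq] at heq
    exact h.2.1 heq.1
  · rintro ⟨v, u⟩ h
    simp only [mem_sigma, mem_erase] at h ⊢
    exact ⟨h.2.2, h.2.1.symm, h.1⟩
  · rintro ⟨v, u⟩ _
    rfl

theorem dP_dP (f : Finset V → Finset V → ZMod 2) (σ ρ : Finset V) : dP (dP f) σ ρ = 0 := by
  simp only [dP, sum_add_distrib]
  rw [sum_erase_erase σ fun a => f a ρ, sum_erase_erase ρ fun a => f σ a]
  rw [sum_comm, zero_add, add_zero]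
  exact zmod2_add_self _

/-- the function on pairs: `1` if the pair alternates and the first element is in the first set -/
noncomputable def eP (ν : V → ℕ) (σ ρ : Finset V) : ZMod 2 :=
  altF ν (fun v => decide (v ∈ σ)) true (σ ∪ ρ)

private theorem eP_swap (ν : V → ℕ) {σ ρ : Finset V} (h : Disjoint σ ρ) :
    eP ν ρ σ = altF ν (fun v => decide (v ∈ σ)) false (σ ∪ ρ) := by
  unfold eP
  rw [← altF_not ν _ false, union_comm ρ σ]
  refine altF_congr fun x hx => ?_
  rcases mem_union.1 hx with h1 | h1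
  · have h2 : x ∉ ρ := disjoint_left.1 h h1
    simp [h1, h2]
  · have h2 : x ∉ σ := fun h2 => disjoint_left.1 h h2 h1
    simp [h1, h2]

theorem dP_eP {ν : V → ℕ} (hν : Function.Injective ν) {σ ρ : Finset V} (h : Disjoint σ ρ) :
    dP (eP ν) σ ρ = eP ν σ ρ + eP ν ρ σ := by
  rw [eP_swap ν h]
  unfold eP
  have h1 := altF_sum_erase hν (fun v => decide (v ∈ σ)) (σ ∪ ρ) true
  rw [Bool.not_true, sum_union h] at h1
  rw [← h1]
  unfold dP
  congr 1
  · refine sum_congr rfl fun v hv => ?_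
    have hvρ : v ∉ ρ := disjoint_left.1 h hv
    have h2 : (σ ∪ ρ).erase v = σ.erase v ∪ ρ := by
      rw [erase_union_distrib, erase_eq_of_notMem hvρ]
    rw [h2]
    refine altF_congr fun x hx => ?_
    have hxv : x ≠ v := by
      rintro rfl
      rcases mem_union.1 hx with h3 | h3
      · exact absurd h3 (notMem_erase x σ)
      · exact hvρ h3
    simp [hxv]
  · refine sum_congr rfl fun v hv => ?_
    have hvσ : v ∉ σ := fun h2 => disjoint_left.1 h h2 hv
    rw [erase_union_distrib, erase_eq_of_notMem hvσ]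

open Classical in
/-- the symmetric function on pairs is the indicator of interlacing -/
theorem eP_add_swap {ν : V → ℕ} (hν : Function.Injective ν) {σ ρ : Finset V} (h : Disjoint σ ρ)
    (hne : (σ ∪ ρ).Nonempty) :
    eP ν σ ρ + eP ν ρ σ = if Interlace ν σ ρ then 1 else 0 := by
  rw [eP_swap ν h]
  unfold eP
  obtain ⟨m, hm, hmin⟩ := exists_min_image (σ ∪ ρ) ν hne
  have key : ∀ x ∈ σ ∪ ρ, ∀ y ∈ σ ∪ ρ,
      (decide (y ∈ σ) = !(decide (x ∈ σ)) ↔ (x ∈ σ ↔ y ∈ ρ)) := by
    intro x hx y hy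
    have h1 : y ∈ ρ ↔ y ∉ σ := by
      rcases mem_union.1 hy with h2 | h2
      · exact ⟨fun h3 => absurd h3 (disjoint_left.1 h h2), fun h3 => absurd h2 h3⟩
      · exact ⟨fun _ h3 => disjoint_left.1 h h3 h2, fun _ => h2⟩
    rw [h1]
    by_cases hx' : x ∈ σ <;> by_cases hy' : y ∈ σ <;> simp [hx', hy']
  have hI : Interlace ν σ ρ ↔ ∀ x ∈ σ ∪ ρ, ∀ y ∈ σ ∪ ρ, ν x < ν y →
      (∀ z ∈ σ ∪ ρ, ¬ (ν x < ν z ∧ ν z < ν y)) → decide (y ∈ σ) = !(decide (x ∈ σ)) := by
    constructor
    · intro hI x hx y hy hxy hc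
      exact (key x hx y hy).2 (hI x hx y hy hxy hc)
    · intro hI x hx y hy hxy hc
      exact (key x hx y hy).1 (hI x hx y hy hxy hc)
  unfold altF
  by_cases h1 : Interlace ν σ ρ
  · rw [if_pos h1]
    have h2 := hI.1 h1
    have hmx : ∀ x ∈ σ ∪ ρ, (∀ z ∈ σ ∪ ρ, ν x ≤ ν z) → x = m := fun x hx hx' =>
      hν (le_antisymm (hx' m hm) (hmin x hx))
    by_cases h3 : m ∈ σ
    · rw [if_pos, if_neg, add_zero]
      · rintro ⟨_, h4⟩
        have h5 := h4 m hm hmin
        simp [h3] at h5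
      · refine ⟨h2, fun x hx hx' => ?_⟩
        rw [hmx x hx hx']
        simpa using h3
    · rw [if_neg, if_pos, zero_add]
      · refine ⟨h2, fun x hx hx' => ?_⟩
        rw [hmx x hx hx']
        simpa using h3
      · rintro ⟨_, h4⟩
        have h5 := h4 m hm hmin
        simp [h3] at h5
  · rw [if_neg h1, if_neg, if_neg, add_zero]
    · rintro ⟨h2, _⟩
      exact h1 (hI.2 h2)
    · rintro ⟨h2, _⟩
      exact h1 (hI.2 h2)

end Pool.Agent.H85.VK
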