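import Pool.Agent.H85.VK.Coch

/-!
# Project VK: independence of the numbering
-/

set_option autoImplicit false

open Finset

namespace Pool.Agent.H85.VK

variable {V : Type} [DecidableEq V]

theorem dP_congr {f g : Finset V → Finset V → ZMod 2} {m : ℕ} {Q : Finset V → Finset V → Prop}
    (hQ : ∀ σ ρ, Q σ ρ → (∀ v ∈ σ, Q (σ.erase v) ρ) ∧ ∀ v ∈ ρ, Q σ (ρ.erase v))
    (h : ∀ σ ρ, Q σ ρ → σ.card + ρ.card = m → f σ ρ = g σ ρ) (σ ρ : Finset V) (hσρ : Q σ ρ)
    (hc : σ.card + ρ.card = m + 1) : dP f σ ρ = dP g σ ρ := by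
  unfold dP
  congr 1
  · refine sum_congr rfl fun v hv => h _ _ ((hQ σ ρ hσρ).1 v hv) ?_
    rw [card_erase_of_mem hv]
    have := card_pos.2 ⟨v, hv⟩
    omega
  · refine sum_congr rfl fun v hv => h _ _ ((hQ σ ρ hσρ).2 v hv) ?_
    rw [card_erase_of_mem hv]
    have := card_pos.2 ⟨v, hv⟩
    omega

theorem disj_erase (σ ρ : Finset V) (h : Disjoint σ ρ) :
    (∀ v ∈ σ, Disjoint (σ.erase v) ρ) ∧ ∀ v ∈ ρ, Disjoint σ (ρ.erase v) :=
  ⟨fun v _ => disjoint_of_subset_left (erase_subset v σ) h,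
    fun v _ => disjoint_of_subset_right (erase_subset v ρ) h⟩

private theorem order_step {ν ν' : V → ℕ} (hν : Function.Injective ν)
    (hν' : Function.Injective ν') (m : ℕ) (h h' : Finset V → Finset V → ZMod 2)
    (hh : ∀ σ ρ : Finset V, Disjoint σ ρ → σ.card + ρ.card = m →
      eP ν σ ρ + eP ν' σ ρ = dP h σ ρ + (h' σ ρ + h' ρ σ)) :
    ∃ h'' : Finset V → Finset V → ZMod 2, ∀ σ ρ : Finset V, Disjoint σ ρ →
      σ.card + ρ.card = m + 1 → eP ν σ ρ + eP ν' σ ρ = dP h' σ ρ + (h'' σ ρ + h'' ρ σ) := by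
  classical
  let F : Finset V → Finset V → ZMod 2 := fun σ ρ => eP ν σ ρ + eP ν' σ ρ + dP h' σ ρ
  have hF : ∀ σ ρ : Finset V, Disjoint σ ρ → σ.card + ρ.card = m + 1 → F σ ρ = F ρ σ := by
    intro σ ρ hd hc
    have h1 := dP_congr (Q := fun σ ρ => Disjoint σ ρ) disj_erase hh σ ρ hd hc
    rw [dP_add, dP_add, dP_add, dP_dP, dP_sw h'] at h1
    have e1 : dP (fun a b => eP ν a b) σ ρ = eP ν σ ρ + eP ν ρ σ := dP_eP hν hd
    have e2 : dP (fun a b => eP ν' a b) σ ρ = eP ν' σ ρ + eP ν' ρ σ := dP_eP hν' hd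
    rw [e1, e2] at h1
    apply zmod2_eq_of_add
    show eP ν σ ρ + eP ν' σ ρ + dP h' σ ρ + (eP ν ρ σ + eP ν' ρ σ + dP h' ρ σ) = 0
    have h2 : eP ν σ ρ + eP ν' σ ρ + dP h' σ ρ + (eP ν ρ σ + eP ν' ρ σ + dP h' ρ σ) =
        (eP ν σ ρ + eP ν ρ σ + (eP ν' σ ρ + eP ν' ρ σ)) + (dP h' σ ρ + dP h' ρ σ) := by ring
    rw [h2, h1, zero_add]
    exact zmod2_add_self _
  refine ⟨fun σ ρ => if WellOrderingRel σ ρ then F σ ρ else 0, fun σ ρ hd hc => ?_⟩
  have hne : σ ≠ ρ := by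
    rintro rfl
    have h1 : σ = ∅ := by
      rw [← Finset.disjoint_self_iff_empty]
      exact hd
    rw [h1] at hc
    simp at hc
  have key : (if WellOrderingRel σ ρ then F σ ρ else 0) +
      (if WellOrderingRel ρ σ then F ρ σ else 0) = F σ ρ := by
    rcases trichotomous_of (WellOrderingRel : Finset V → Finset V → Prop) σ ρ with h1 | h1 | h1
    · rw [if_pos h1, if_neg (asymm_of WellOrderingRel h1), add_zero]
    · exact absurd h1 hne
    · rw [if_pos h1, if_neg (asymm_of WellOrderingRel h1), zero_add, hF σ ρ hd hc]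
  simp only
  rw [key]
  show _ = dP h' σ ρ + (eP ν σ ρ + eP ν' σ ρ + dP h' σ ρ)
  have h3 := zmod2_add_self (dP h' σ ρ)
  linear_combination -h3

/-- the functions of two numberings are homotopic -/
theorem eP_homotopy {ν ν' : V → ℕ} (hν : Function.Injective ν) (hν' : Function.Injective ν')
    (m : ℕ) : ∃ h h' : Finset V → Finset V → ZMod 2, ∀ σ ρ : Finset V, Disjoint σ ρ →
      σ.card + ρ.card = m → eP ν σ ρ + eP ν' σ ρ = dP h σ ρ + (h' σ ρ + h' ρ σ) := by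
  induction m with
  | zero =>
    refine ⟨fun _ _ => 0, fun _ _ => 0, fun σ ρ _ hc => ?_⟩
    have h1 : σ = ∅ := card_eq_zero.1 (by omega)
    have h2 : ρ = ∅ := card_eq_zero.1 (by omega)
    subst h1 h2
    have h3 : ∀ μ : V → ℕ, eP μ ∅ ∅ = 1 := by
      intro μ
      unfold eP altF
      rw [union_empty, if_pos (altP_empty μ _ true)]
    rw [h3, h3]
    simp only [dP, sum_empty]
    decide
  | succ m ih =>
    obtain ⟨h, h', hh⟩ := ih
    obtain ⟨h'', hh''⟩ := order_step hν hν' m h h' hh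
    exact ⟨h', h'', hh''⟩

open Classical in
/-- **Independence of the numbering.** -/
theorem interlace_change {ν ν' : V → ℕ} (hν : Function.Injective ν)
    (hν' : Function.Injective ν') (k : ℕ) : ∃ H : Finset V → Finset V → ZMod 2,
      ∀ σ τ : Finset V, Disjoint σ τ → σ.card = k + 1 → τ.card = k + 1 →
        (if Interlace ν' σ τ then (1 : ZMod 2) else 0) = (if Interlace ν σ τ then 1 else 0) +
          (∑ v ∈ τ, H σ (τ.erase v) + ∑ v ∈ σ, H τ (σ.erase v)) := by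
  obtain ⟨h, h', hh⟩ := eP_homotopy hν hν' (2 * k + 2)
  refine ⟨fun σ ρ => h σ ρ + h ρ σ, fun σ τ hd h1 h2 => ?_⟩
  have hne : (σ ∪ τ).Nonempty := by
    rw [← card_pos, card_union_of_disjoint hd]
    omega
  rw [← eP_add_swap hν hd hne, ← eP_add_swap hν' hd hne]
  have h3 := hh σ τ hd (by omega)
  have h4 := hh τ σ hd.symm (by omega)
  have h5 : ∑ v ∈ τ, (h σ (τ.erase v) + h (τ.erase v) σ) +
      ∑ v ∈ σ, (h τ (σ.erase v) + h (σ.erase v) τ) = dP h σ τ + dP h τ σ := by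
    simp only [dP, sum_add_distrib]
    ring
  rw [h5]
  have h6 := zmod2_add_self (eP ν σ τ)
  have h7 := zmod2_add_self (eP ν τ σ)
  have h8 := zmod2_add_self (h' σ τ)
  have h9 := zmod2_add_self (h' τ σ)
  linear_combination h3 + h4 - h6 - h7 + h8 + h9

end Pool.Agent.H85.VK
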