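import Pool.Agent.H85.VK.Defs

/-!
# Project VK: interlacing sets and their cochain identity
-/

set_option autoImplicit false

open Finset

namespace Pool.Agent.H85.VK

section Alt

variable {V : Type} [DecidableEq V]

/-- the elements of `P` alternate with respect to `χ`, the first one has value `b` -/
def AltP (ν : V → ℕ) (χ : V → Bool) (b : Bool) (P : Finset V) : Prop :=
  (∀ x ∈ P, ∀ y ∈ P, ν x < ν y → (∀ z ∈ P, ¬ (ν x < ν z ∧ ν z < ν y)) → χ y = !(χ x)) ∧
    ∀ x ∈ P, (∀ z ∈ P, ν x ≤ ν z) → χ x = b

omit [DecidableEq V] in
theorem altP_empty (ν : V → ℕ) (χ : V → Bool) (b : Bool) : AltP ν χ b ∅ :=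
  ⟨fun x hx => absurd hx (notMem_empty x), fun x hx => absurd hx (notMem_empty x)⟩

theorem altP_insert {ν : V → ℕ} (χ : V → Bool) (b : Bool) (a : V) (P : Finset V)
    (ha : ∀ x ∈ P, ν a < ν x) : AltP ν χ b (insert a P) ↔ χ a = b ∧ AltP ν χ (!b) P := by
  constructor
  · rintro ⟨h1, h2⟩
    have hab : χ a = b := by
      refine h2 a (mem_insert_self a P) fun z hz => ?_
      rcases mem_insert.1 hz with rfl | hz
      · exact le_rfl
      · exact (ha z hz).le
    refine ⟨hab, fun x hx y hy hxy hc => ?_, fun x hx hm => ?_⟩
    · refine h1 x (mem_insert_of_mem hx) y (mem_insert_of_mem hy) hxy fun z hz hz' => ?_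
      rcases mem_insert.1 hz with rfl | hz
      · have := ha x hx
        omega
      · exact hc z hz hz'
    · rw [← hab]
      refine h1 a (mem_insert_self a P) x (mem_insert_of_mem hx) (ha x hx) fun z hz hz' => ?_
      rcases mem_insert.1 hz with rfl | hz
      · omega
      · have := hm z hz
        omega
  · rintro ⟨hab, h1, h2⟩
    refine ⟨fun x hx y hy hxy hc => ?_, fun x hx hm => ?_⟩
    · have hyP : y ∈ P := by
        rcases mem_insert.1 hy with h | h
        · exfalso
          rcases mem_insert.1 hx with h' | h'
          · rw [h, h'] at hxy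
            omega
          · have := ha x h'
            rw [h] at hxy
            omega
        · exact h
      rcases mem_insert.1 hx with h | h
      · rw [h, hab]
        refine h2 y hyP fun z hz => ?_
        by_contra hlt
        refine hc z (mem_insert_of_mem hz) ⟨?_, by omega⟩
        rw [h]
        exact ha z hz
      · exact h1 x h y hyP hxy fun z hz => hc z (mem_insert_of_mem hz)
    · rcases mem_insert.1 hx with h | h
      · rw [h]
        exact hab
      · exfalso
        have h3 := hm a (mem_insert_self a P)
        have h4 := ha x h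
        omega

open Classical in
/-- the indicator of `AltP` modulo two -/
noncomputable def altF (ν : V → ℕ) (χ : V → Bool) (b : Bool) (P : Finset V) : ZMod 2 :=
  if AltP ν χ b P then 1 else 0

theorem altF_insert {ν : V → ℕ} (χ : V → Bool) (b : Bool) (a : V) (P : Finset V)
    (ha : ∀ x ∈ P, ν a < ν x) :
    altF ν χ b (insert a P) = if χ a = b then altF ν χ (!b) P else 0 := by
  classical
  unfold altF
  by_cases h : χ a = b
  · rw [if_pos h]
    by_cases h2 : AltP ν χ (!b) P
    · rw [if_pos h2, if_pos ((altP_insert χ b a P ha).2 ⟨h, h2⟩)]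
    · rw [if_neg h2, if_neg fun h3 => h2 ((altP_insert χ b a P ha).1 h3).2]
  · rw [if_neg h, if_neg]
    rw [altP_insert χ b a P ha]
    exact fun h1 => h h1.1

/-- **The cochain identity.** -/
theorem altF_sum_erase {ν : V → ℕ} (hν : Function.Injective ν) (χ : V → Bool) (P : Finset V) :
    ∀ b, ∑ v ∈ P, altF ν χ b (P.erase v) = altF ν χ b P + altF ν χ (!b) P := by
  induction P using Finset.induction_on_min_value ν with
  | empty =>
    intro b
    have h1 : ∀ b, altF ν χ b ∅ = 1 := fun b => if_pos (altP_empty ν χ b)
    rw [sum_empty, h1, h1]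
    decide
  | insert a P haP hmin ih =>
    intro b
    have ha : ∀ x ∈ P, ν a < ν x := by
      intro x hx
      refine lt_of_le_of_ne (hmin x hx) fun h => ?_
      rw [hν h] at haP
      exact haP hx
    rw [sum_insert haP, erase_insert haP, altF_insert χ b a P ha, altF_insert χ (!b) a P ha]
    have h1 : ∑ v ∈ P, altF ν χ b ((insert a P).erase v) =
        ∑ v ∈ P, if χ a = b then altF ν χ (!b) (P.erase v) else 0 := by
      refine sum_congr rfl fun v hv => ?_
      have hne : a ≠ v := fun h => haP (h ▸ hv)
      rw [erase_insert_of_ne hne, altF_insert χ b a (P.erase v) fun x hx => ha x (mem_of_mem_erase hx)]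
    rw [h1]
    have h2 : ∀ x : ZMod 2, x + x = 0 := by decide
    by_cases h : χ a = b
    · have h' : χ a ≠ !b := by
        rw [h]
        cases b <;> decide
      simp only [if_pos h, if_neg h', add_zero]
      rw [ih (!b), Bool.not_not, add_comm (altF ν χ (!b) P), ← add_assoc, h2, zero_add]
    · have h' : χ a = !b := by
        revert h
        cases χ a <;> cases b <;> decide
      simp only [if_neg h, if_pos h', sum_const_zero, Bool.not_not, add_zero, zero_add]

end Alt

end Pool.Agent.H85.VK
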