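import Pool.Agent.H85.VK.Quad
import Pool.Agent.H85.VK.Order

/-!
# Project VK: interlacing rainbow simplices in a numbering by blocks of colours
-/

set_option autoImplicit false
set_option linter.unusedSectionVars false

open Finset

namespace Pool.Agent.H85.VK

open Pool.Agent.H4.Singer

variable {V : Type} [DecidableEq V] [Fintype V] {k : ℕ}

theorem Interlace.symm {ν : V → ℕ} {σ τ : Finset V} (hd : Disjoint σ τ) (h : Interlace ν σ τ) :
    Interlace ν τ σ := by
  intro x hx y hy hxy hc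
  rw [union_comm] at hx hy hc
  have h1 := h x hx y hy hxy hc
  have key : ∀ z ∈ σ ∪ τ, (z ∈ τ ↔ z ∉ σ) := by
    intro z hz
    rcases mem_union.1 hz with h2 | h2
    · exact ⟨fun h3 => absurd h3 (disjoint_left.1 hd h2), fun h3 => absurd h2 h3⟩
    · exact ⟨fun _ h3 => disjoint_left.1 hd h3 h2, fun _ => h2⟩
  rw [key x hx]
  rw [key y hy] at h1
  tauto

theorem img_disjoint {Γ : ColGraph V (Fin (k + 1))} {κ κ' : Fin (k + 1) → V} (h : κ ∈ rbw Γ)
    (h' : κ' ∈ rbw Γ) (hne : ∀ c, κ c ≠ κ' c) : Disjoint (img κ) (img κ') := by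
  rw [disjoint_left]
  intro v hv hv'
  unfold img at hv hv'
  rw [mem_image] at hv hv'
  obtain ⟨a, _, rfl⟩ := hv
  obtain ⟨b, _, hb⟩ := hv'
  have h1 : b = a := by
    rw [← mem_rbw.1 h' b, hb, mem_rbw.1 h a]
  rw [h1] at hb
  exact hne a hb.symm

private theorem interlace_of_bef {Γ : ColGraph V (Fin (k + 1))} {ν : V → ℕ}
    (hb : ∀ u v, Γ.col u < Γ.col v → ν u < ν v) {κ κ' : Fin (k + 1) → V} (h : κ ∈ rbw Γ)
    (h' : κ' ∈ rbw Γ) (hne : ∀ c, κ c ≠ κ' c) (hB : Bef ν κ κ') :
    Interlace ν (img κ) (img κ') := by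
  have hd := img_disjoint h h' hne
  have hm : ∀ c, κ c ∈ img κ := fun c => mem_image_of_mem κ (mem_univ c)
  have hm' : ∀ c, κ' c ∈ img κ' := fun c => mem_image_of_mem κ' (mem_univ c)
  have hcol := mem_rbw.1 h
  have hcol' := mem_rbw.1 h'
  have hlt : ∀ {u v : V} {a b : Fin (k + 1)}, Γ.col u = a → Γ.col v = b → a ≠ b → ν u < ν v →
      a < b := by
    intro u v a b hu hv hab huv
    rcases lt_or_gt_of_ne hab with h1 | h1
    · exact h1
    · exfalso
      have := hb v u (by rw [hu, hv]; exact h1)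
      omega
  intro x hx y hy hxy hc
  rcases mem_union.1 hx with hx1 | hx1
  · rcases mem_union.1 hy with hy1 | hy1
    · exfalso
      unfold img at hx1 hy1
      rw [mem_image] at hx1 hy1
      obtain ⟨a, _, rfl⟩ := hx1
      obtain ⟨b, _, rfl⟩ := hy1
      have hab : a ≠ b := by
        rintro rfl
        omega
      have h1 := hlt (hcol a) (hcol b) hab hxy
      exact hc (κ' a) (mem_union_right _ (hm' a))
        ⟨hB a, hb _ _ (by rw [hcol', hcol]; exact h1)⟩
    · exact ⟨fun _ => hy1, fun _ => hx1⟩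
  · rcases mem_union.1 hy with hy1 | hy1
    · exact ⟨fun h2 => absurd hx1 (disjoint_left.1 hd h2),
        fun h2 => absurd h2 (disjoint_left.1 hd hy1)⟩
    · exfalso
      unfold img at hx1 hy1
      rw [mem_image] at hx1 hy1
      obtain ⟨a, _, rfl⟩ := hx1
      obtain ⟨b, _, rfl⟩ := hy1
      have hab : a ≠ b := by
        rintro rfl
        omega
      have h1 := hlt (hcol' a) (hcol' b) hab hxy
      exact hc (κ b) (mem_union_left _ (hm b))
        ⟨hb _ _ (by rw [hcol', hcol]; exact h1), hB b⟩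

/-- In a numbering by blocks of colours two rainbow simplices interlace if and only if one is before
the other one in all colours. -/
theorem interlace_iff {Γ : ColGraph V (Fin (k + 1))} {ν : V → ℕ} (hν : Function.Injective ν)
    (hb : ∀ u v, Γ.col u < Γ.col v → ν u < ν v) {κ κ' : Fin (k + 1) → V} (h : κ ∈ rbw Γ)
    (h' : κ' ∈ rbw Γ) (hne : ∀ c, κ c ≠ κ' c) :
    Interlace ν (img κ) (img κ') ↔ Bef ν κ κ' ∨ Bef ν κ' κ := by
  have hd := img_disjoint h h' hne
  constructor
  · intro hI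
    have hm : ∀ c, κ c ∈ img κ := fun c => mem_image_of_mem κ (mem_univ c)
    have hm' : ∀ c, κ' c ∈ img κ' := fun c => mem_image_of_mem κ' (mem_univ c)
    have hcol := mem_rbw.1 h
    have hcol' := mem_rbw.1 h'
    have hnot : ∀ c, κ' c ∉ img κ := fun c hc => disjoint_left.1 hd hc (hm' c)
    have hnot' : ∀ c, κ c ∉ img κ' := fun c hc => disjoint_left.1 hd (hm c) hc
    have hne2 : ∀ c, ν (κ c) ≠ ν (κ' c) := fun c hc => hne c (hν hc)
    -- no element of the union lies between the blocks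
    have hbet : ∀ (m : ℕ) (h1 : m < k + 1) (h2 : m + 1 < k + 1) (x y : V),
        Γ.col x = ⟨m, h1⟩ → Γ.col y = ⟨m + 1, h2⟩ → ν (κ ⟨m, h1⟩) ≤ ν x → ν (κ' ⟨m, h1⟩) ≤ ν x →
        ν y ≤ ν (κ ⟨m + 1, h2⟩) → ν y ≤ ν (κ' ⟨m + 1, h2⟩) →
        ∀ z ∈ img κ ∪ img κ', ¬ (ν x < ν z ∧ ν z < ν y) := by
      rintro m h1 h2 x y hx hy hx1 hx2 hy1 hy2 z hz ⟨hxz, hzy⟩
      have hz2 : ∃ d, (z = κ d ∨ z = κ' d) ∧ Γ.col z = d := by
        rcases mem_union.1 hz with h3 | h3
        · unfold img at h3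
          rw [mem_image] at h3
          obtain ⟨d, _, rfl⟩ := h3
          exact ⟨d, Or.inl rfl, hcol d⟩
        · unfold img at h3
          rw [mem_image] at h3
          obtain ⟨d, _, rfl⟩ := h3
          exact ⟨d, Or.inr rfl, hcol' d⟩
      obtain ⟨d, hd1, hd2⟩ := hz2
      rcases lt_or_ge d.1 m with h3 | h3
      · have := hb z x (by rw [hd2, hx]; exact h3)
        omega
      rcases lt_or_ge (m + 1) d.1 with h4 | h4
      · have := hb y z (by rw [hd2, hy]; exact h4)
        omega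
      rcases Nat.eq_or_lt_of_le h3 with h5 | h5
      · have h6 : d = ⟨m, h1⟩ := Fin.ext h5.symm
        rcases hd1 with rfl | rfl
        · rw [h6] at hxz
          omega
        · rw [h6] at hxz
          omega
      · have h6 : d = ⟨m + 1, h2⟩ := Fin.ext (by simp only; omega)
        rcases hd1 with rfl | rfl
        · rw [h6] at hzy
          omega
        · rw [h6] at hzy
          omega
    have hstep : ∀ (m : ℕ) (h1 : m < k + 1) (h2 : m + 1 < k + 1),
        (ν (κ ⟨m, h1⟩) < ν (κ' ⟨m, h1⟩) ↔ ν (κ ⟨m + 1, h2⟩) < ν (κ' ⟨m + 1, h2⟩)) := by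
      intro m h1 h2
      have hlt : (⟨m, h1⟩ : Fin (k + 1)) < ⟨m + 1, h2⟩ := by
        rw [Fin.lt_def]
        exact Nat.lt_succ_self m
      constructor
      · intro h3
        by_contra h4
        have h5 : ν (κ' ⟨m + 1, h2⟩) < ν (κ ⟨m + 1, h2⟩) := by
          have := hne2 ⟨m + 1, h2⟩
          omega
        have h6 := hI (κ' ⟨m, h1⟩) (mem_union_right _ (hm' _)) (κ' ⟨m + 1, h2⟩)
          (mem_union_right _ (hm' _)) (hb _ _ (by rw [hcol', hcol']; exact hlt))
          (hbet m h1 h2 _ _ (hcol' _) (hcol' _) h3.le le_rfl h5.le le_rfl)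
        exact hnot _ (h6.2 (hm' _))
      · intro h3
        by_contra h4
        have h5 : ν (κ' ⟨m, h1⟩) < ν (κ ⟨m, h1⟩) := by
          have := hne2 ⟨m, h1⟩
          omega
        have h6 := hI (κ ⟨m, h1⟩) (mem_union_left _ (hm _)) (κ ⟨m + 1, h2⟩)
          (mem_union_left _ (hm _)) (hb _ _ (by rw [hcol, hcol]; exact hlt))
          (hbet m h1 h2 _ _ (hcol _) (hcol _) le_rfl h5.le le_rfl h3.le)
        exact hnot' _ (h6.1 (hm _))
    have hall : ∀ (m : ℕ) (h1 : m < k + 1),
        (ν (κ ⟨m, h1⟩) < ν (κ' ⟨m, h1⟩) ↔ ν (κ 0) < ν (κ' 0)) := by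
      intro m
      induction m with
      | zero => exact fun _ => Iff.rfl
      | succ m ih =>
        intro h1
        rw [← hstep m (by omega) h1]
        exact ih (by omega)
    by_cases h3 : ν (κ 0) < ν (κ' 0)
    · exact Or.inl fun c => (hall c.1 c.2).2 h3
    · refine Or.inr fun c => ?_
      have h4 : ¬ ν (κ c) < ν (κ' c) := fun h5 => h3 ((hall c.1 c.2).1 h5)
      have := hne2 c
      omega
  · rintro (hB | hB)
    · exact interlace_of_bef hb h h' hne hB
    · exact (interlace_of_bef hb h' h (fun c => (hne c).symm) hB).symm hd.symm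

open Classical in
theorem interlace_sum {Γ : ColGraph V (Fin (k + 1))} {ν : V → ℕ} (hν : Function.Injective ν)
    (hb : ∀ u v, Γ.col u < Γ.col v → ν u < ν v) {κ κ' : Fin (k + 1) → V} (h : κ ∈ rbw Γ)
    (h' : κ' ∈ rbw Γ) (hne : ∀ c, κ c ≠ κ' c) (K : Type) [Field K] :
    (if Bef ν κ κ' then (1 : K) else 0) + (if Bef ν κ' κ then 1 else 0) =
      if Interlace ν (img κ) (img κ') then 1 else 0 := by
  rw [interlace_iff hν hb h h' hne]
  by_cases h1 : Bef ν κ κ'
  · have h2 : ¬ Bef ν κ' κ := by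
      intro h2
      have := h1 0
      have := h2 0
      omega
    rw [if_pos h1, if_neg h2, if_pos (Or.inl h1), add_zero]
  · by_cases h2 : Bef ν κ' κ
    · rw [if_neg h1, if_pos h2, if_pos (Or.inr h2), zero_add]
    · rw [if_neg h1, if_neg h2, if_neg (by tauto), add_zero]

/-- a numbering by blocks of colours -/
theorem exists_block (Γ : ColGraph V (Fin (k + 1))) : ∃ ν : V → ℕ, Function.Injective ν ∧
    ∀ u v, Γ.col u < Γ.col v → ν u < ν v := by
  let e := Fintype.equivFin V
  refine ⟨fun v => (Γ.col v : ℕ) * Fintype.card V + e v, fun u v huv => ?_, fun u v huv => ?_⟩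
  · have h1 := (e u).2
    have h2 := (e v).2
    simp only at huv
    have h3 : (Γ.col u : ℕ) = Γ.col v := by
      rcases lt_trichotomy (Γ.col u : ℕ) (Γ.col v) with h4 | h4 | h4
      · exfalso
        have h5 := Nat.mul_le_mul_right (Fintype.card V) (Nat.succ_le_of_lt h4)
        rw [Nat.succ_mul] at h5
        omega
      · exact h4
      · exfalso
        have h5 := Nat.mul_le_mul_right (Fintype.card V) (Nat.succ_le_of_lt h4)
        rw [Nat.succ_mul] at h5
        omega
    rw [h3] at huv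
    exact e.injective (Fin.ext (by omega))
  · have h1 := (e u).2
    have h4 : (Γ.col u : ℕ) < Γ.col v := huv
    have h5 := Nat.mul_le_mul_right (Fintype.card V) (Nat.succ_le_of_lt h4)
    rw [Nat.succ_mul] at h5
    show (Γ.col u : ℕ) * Fintype.card V + e u < (Γ.col v : ℕ) * Fintype.card V + e v
    omega

end Pool.Agent.H85.VK
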