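import Pool.Agent.H85.VK.OnSet
import Pool.Agent.H4.HY.GenCol

/-!
# Project VK: special cube complexes

The transfer theorem of helper4 and the local exactness of `OnSet`.
-/

set_option autoImplicit false

namespace Pool.Agent.H85.VK

open Pool.Agent.H4.Singer Pool.Agent.H4.Singer2 Pool.Agent.H19.Cub

/-- **The main theorem for cube complexes.** -/
theorem l2_cube {V X : Type} [DecidableEq V] [Fintype V] [Fintype X] {k : ℕ}
    (Q : CubeComplex V X) (hG : Q.graph.Colorable (k + 1))
    (h : ∀ x, VanKampenZero (onSet Q.graph (Q.lab x)) k) (i : ℕ) (hi : k < i) (x : X) :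
    L2HomologyZero (Q.cover x) i := by
  obtain ⟨C⟩ := hG
  exact Pool.Agent.H4.HY.general_of_van Q (colG Q.graph C) (fun _ _ => Iff.rfl) i
    (fun y => ⟨RF V, inferInstance, inferInstance, fun v => (xv v : RF V),
      van_on (colG Q.graph C) Q.graph (fun _ _ => Iff.rfl) (Q.lab y) (h y) i hi⟩) x

end Pool.Agent.H85.VK
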