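import Pool.Agent.H85.VK.Final

/-!
# Project VK: induced subcomplexes

Local exactness for the induced subgraph on a finite set `U` of labels (a vertex link of a special
cube complex).
-/

set_option autoImplicit false
set_option linter.unusedSectionVars false

open Finset

namespace Pool.Agent.H85.VK

open Pool.Agent.H4.Singer Pool.Agent.H4.Singer2

variable {V : Type} [DecidableEq V] [Fintype V] {k : ℕ}

/-- the link graph: the induced subgraph on `U` -/
def onSet (G : SimpleGraph V) (U : Finset V) : SimpleGraph {v // v ∈ U} :=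
  G.comap (Subtype.val : {v // v ∈ U} → V)

private theorem os_map (U σ : Finset V) (h : σ ⊆ U) :
    (σ.subtype (· ∈ U)).image Subtype.val = σ := by
  ext v
  simp only [mem_image, mem_subtype]
  constructor
  · rintro ⟨a, ha, rfl⟩
    exact ha
  · intro hv
    exact ⟨⟨v, h hv⟩, hv, rfl⟩

private theorem os_card (U σ : Finset V) (h : σ ⊆ U) :
    (σ.subtype (· ∈ U)).card = σ.card := by
  conv_rhs => rw [← os_map U σ h]
  rw [card_image_of_injective _ Subtype.val_injective]

private theorem os_clique {G : SimpleGraph V} {U σ : Finset V} (h : G.IsClique (σ : Set V)) :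
    (onSet G U).IsClique ((σ.subtype (· ∈ U) : Finset {v // v ∈ U}) : Set {v // v ∈ U}) := by
  intro a ha b hb hab
  rw [mem_coe, mem_subtype] at ha hb
  exact h ha hb fun he => hab (Subtype.ext he)

private theorem os_erase (U τ : Finset V) (v : {v // v ∈ U}) :
    (τ.erase v.1).subtype (· ∈ U) = (τ.subtype (· ∈ U)).erase v := by
  ext a
  simp only [mem_subtype, mem_erase, ne_eq, Subtype.ext_iff]

private theorem os_interlace (U : Finset V) (ν : V → ℕ) {σ τ : Finset V} (hσ : σ ⊆ U)
    (hτ : τ ⊆ U) : Interlace (fun v : {v // v ∈ U} => ν v.1) (σ.subtype (· ∈ U))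
      (τ.subtype (· ∈ U)) ↔ Interlace ν σ τ := by
  constructor
  · intro h x hx y hy hxy hc
    have hxU : x ∈ U := (mem_union.1 hx).elim (fun h => hσ h) fun h => hτ h
    have hyU : y ∈ U := (mem_union.1 hy).elim (fun h => hσ h) fun h => hτ h
    have h1 := h ⟨x, hxU⟩ (by simpa [mem_union, mem_subtype] using hx) ⟨y, hyU⟩
      (by simpa [mem_union, mem_subtype] using hy) hxy fun z hz => hc z.1 (by
        simpa [mem_union, mem_subtype] using hz)
    simpa [mem_subtype] using h1
  · intro h x hx y hy hxy hc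
    rw [mem_union, mem_subtype, mem_subtype] at hx hy
    have h1 := h x.1 (mem_union.2 hx) y.1 (mem_union.2 hy) hxy fun z hz => by
      have hzU : z ∈ U := (mem_union.1 hz).elim (fun h => hσ h) fun h => hτ h
      exact hc ⟨z, hzU⟩ (by simpa [mem_union, mem_subtype] using hz)
    simpa [mem_subtype] using h1

open Classical in
theorem vanKampen_on {G : SimpleGraph V} {U : Finset V} (h : VanKampenZero (onSet G U) k)
    {ν : V → ℕ} (hν : Function.Injective ν) : ∃ g : Finset V → Finset V → ZMod 2,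
    ∀ σ τ : Finset V, σ ⊆ U → τ ⊆ U → G.IsClique (σ : Set V) → σ.card = k + 1 →
      G.IsClique (τ : Set V) → τ.card = k + 1 → Disjoint σ τ →
      (if Interlace ν σ τ then (1 : ZMod 2) else 0) =
        ∑ v ∈ τ, g σ (τ.erase v) + ∑ v ∈ σ, g τ (σ.erase v) := by
  obtain ⟨g, hg⟩ := vanKampen_all h (ν' := fun v : {v // v ∈ U} => ν v.1)
    fun a b hab => Subtype.ext (hν hab)
  refine ⟨fun σ ρ => g (σ.subtype (· ∈ U)) (ρ.subtype (· ∈ U)),
    fun σ τ hσ hτ h1 h2 h3 h4 h5 => ?_⟩
  have h6 := hg (σ.subtype (· ∈ U)) (τ.subtype (· ∈ U)) (os_clique h1)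
    (by rw [os_card U σ hσ, h2]) (os_clique h3) (by rw [os_card U τ hτ, h4])
    (by
      rw [disjoint_left] at h5 ⊢
      intro a ha hb
      rw [mem_subtype] at ha hb
      exact h5 ha hb)
  have key : ∀ (α β : Finset V), β ⊆ U →
      ∑ v ∈ β, g (α.subtype (· ∈ U)) ((β.erase v).subtype (· ∈ U)) =
        ∑ v ∈ β.subtype (· ∈ U), g (α.subtype (· ∈ U)) ((β.subtype (· ∈ U)).erase v) := by
    intro α β hβ
    conv_lhs => rw [← os_map U β hβ]
    rw [sum_image fun a _ b _ hab => Subtype.val_injective hab]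
    refine sum_congr rfl fun v _ => ?_
    rw [os_map U β hβ, os_erase]
  rw [key σ τ hτ, key τ σ hσ, ← h6]
  exact if_congr (os_interlace U ν hσ hτ).symm rfl rfl

/-- **The stress theorem** for the induced subgraph on `U`. -/
theorem stressFree_on (Γ : ColGraph V (Fin (k + 1))) (G : SimpleGraph V)
    (hG : ∀ u v, G.Adj u v ↔ Γ.adj u v) (U : Finset V) (h : VanKampenZero (onSet G U) k) :
    StressFree (fun v => (xv v : RF V)) (clq Γ U (k + 1)) := by
  classical
  have hcl : ∀ σ : Finset V, Γ.Cl σ → G.IsClique (σ : Set V) := by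
    intro σ hσ u hu v hv huv
    exact (hG u v).2 (hσ u hu v hv huv)
  intro z hz
  have hz' : ∀ φ, z φ ≠ 0 → φ ∈ clq Γ univ (k + 1) := by
    intro φ hφ
    have h1 := mem_clq.1 (hz.supp φ hφ)
    exact mem_clq.2 ⟨subset_univ _, h1.2⟩
  obtain ⟨ν, hν, hb⟩ := exists_block Γ
  obtain ⟨g, hg⟩ := vanKampen_on h hν
  have hs1 : ∀ κ ∈ rbw Γ, ∀ c,
      ∑ v ∈ cls Γ c, z (img (Function.update κ c v)) = 0 := by
    intro κ hκ c
    have h1 := stress_slice (Γ := Γ) hz' (fun _ => 1)
      (fun τ => by simpa using hz.sum τ) hκ c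
    simpa using h1
  have hs2 : ∀ κ ∈ rbw Γ, ∀ c,
      ∑ v ∈ cls Γ c, xv v * z (img (Function.update κ c v)) = 0 := by
    intro κ hκ c
    exact stress_slice (Γ := Γ) hz' (fun v => (xv v : RF V)) hz.wsum hκ c
  have hq := quad_identity Γ hν (fun v => (xv v : RF V)) (fun κ => z (img κ)) hs1
  rw [quad_zero Γ ν (fun v => (xv v : RF V)) (fun κ => z (img κ)) hs1 hs2
    (fun σ ρ => ZMod.castHom (dvd_refl 2) (RF V) (g σ ρ)) ?_] at hq
  · -- the sum over the tuples as a sum over the simplices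
    have h2 : ∑ S ∈ (rbw Γ).image img, (∏ v ∈ S, (xv v : RF V)) * z S ^ 2 = 0 := by
      rw [sum_image (img_injOn Γ), hq]
      exact sum_congr rfl fun κ hκ => by rw [prod_img hκ]
    funext S
    by_contra hne
    have hS := hz' S hne
    obtain ⟨κ, hκ, hκS⟩ := exists_rbw (Γ := Γ) (φ := S) (by rwa [Fintype.card_fin])
    exact hne (sum_prod_sq _ z h2 S (mem_image.2 ⟨κ, hκ, hκS⟩))
  · intro κ hκ κ' hκ' hZ hZ' hne
    rw [interlace_sum hν hb hκ hκ' hne (RF V)]
    have hc1 := mem_clq.1 (hz.supp _ hZ)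
    have hc2 := mem_clq.1 (hz.supp _ hZ')
    have h3 := hg (img κ) (img κ') hc1.1 hc2.1 (hcl _ hc1.2.1) hc1.2.2
      (hcl _ hc2.2.1) hc2.2.2 (img_disjoint hκ hκ' hne)
    have h4 := congrArg (ZMod.castHom (dvd_refl 2) (RF V)) h3
    rw [sum_img hκ', sum_img hκ] at h4
    simp only [img_erase hκ', img_erase hκ, map_add, map_sum] at h4
    rw [← h4]
    split_ifs
    · rw [map_one]
    · rw [map_zero]

/-- **Local exactness** above the degree `k` for the induced subgraph on `U`. -/
theorem van_on (Γ : ColGraph V (Fin (k + 1))) (G : SimpleGraph V)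
    (hG : ∀ u v, G.Adj u v ↔ Γ.adj u v) (U : Finset V) (h : VanKampenZero (onSet G U) k)
    (i : ℕ) (hi : k < i) : Van Γ (fun v => (xv v : RF V)) U i := by
  have hcard : ∀ σ, Γ.Cl σ → σ.card ≤ k + 1 := by
    intro σ hσ
    have h1 : Set.InjOn Γ.col (σ : Set V) := by
      intro u hu v hv huv
      by_contra hne
      exact Γ.ne u v (hσ u hu v hv hne) huv
    have h2 := card_le_card_of_injOn Γ.col (fun _ _ => mem_univ _) h1
    rwa [card_univ, Fintype.card_fin] at h2
  have h1 := van_join_sf Γ (fun v => (xv v : RF V)) ∅ U (by simp) 1 le_rfl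
    (fun j hj => van_empty Γ _ j hj) (k + 1) (by omega) (fun σ _ hσ => hcard σ hσ)
    (fun β hβ v _ => by
      have hβ' : β ∈ clq Γ univ (k + 1) := mem_clq.2 ⟨subset_univ _, (mem_clq.1 hβ).2⟩
      obtain ⟨κ, hκ, rfl⟩ := exists_rbw (Γ := Γ) (φ := β) (by rwa [Fintype.card_fin])
      exact ⟨κ (Γ.col v), mem_image_of_mem κ (mem_univ _), mem_rbw.1 hκ _⟩)
    (stressFree_on Γ G hG U h) i (by omega)
  rwa [empty_union] at h1

end Pool.Agent.H85.VK
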