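import Pool.Agent.H85.VK.Slice
import Pool.Agent.H85.VK.Defs

/-!
# Project VK: the quadratic identity
-/

set_option autoImplicit false

open Finset

namespace Pool.Agent.H85.VK

open Pool.Agent.H4.Singer

variable {V C : Type} [DecidableEq V] [Fintype V] [DecidableEq C] [Fintype C] {K : Type}
  [Field K] [CharP K 2]

/-- the matrix `β` -/
def bV (ν : V → ℕ) (t : V → K) (v w : V) : K := if ν v < ν w then t v + t w else 0

/-- the symmetric matrix -/
def sV (ν : V → ℕ) (t : V → K) (v w : V) : K := bV ν t v w + t v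

omit [DecidableEq V] [Fintype V] in
theorem sV_symm {ν : V → ℕ} (hν : Function.Injective ν) (t : V → K) (v w : V) :
    sV ν t v w = sV ν t w v := by
  unfold sV bV
  have h1 := CharTwo.add_self_eq_zero (t v)
  have h2 := CharTwo.add_self_eq_zero (t w)
  rcases lt_trichotomy (ν v) (ν w) with h | h | h
  · rw [if_pos h, if_neg (by omega)]
    linear_combination h1
  · rw [hν h]
  · rw [if_neg (by omega), if_pos h]
    linear_combination -h2

omit [DecidableEq V] [Fintype V] [CharP K 2] in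
theorem sV_self (ν : V → ℕ) (t : V → K) (v : V) : sV ν t v v = t v := by
  unfold sV bV
  rw [if_neg (lt_irrefl _), zero_add]

/-- the mixed sums -/
def pS (Γ : ColGraph V C) (ν : V → ℕ) (t : V → K) (Z : (C → V) → K) (A : Finset C) : K :=
  ∑ κ ∈ rbw Γ, ∑ κ' ∈ rbw Γ, (∏ c ∈ A, sV ν t (κ c) (κ' c)) *
    (∏ c ∈ Aᶜ, bV ν t (κ c) (κ' c)) * (Z κ * Z κ')

theorem pS_insert (Γ : ColGraph V C) (ν : V → ℕ) (t : V → K) (Z : (C → V) → K)
    (h1 : ∀ κ ∈ rbw Γ, ∀ c, ∑ v ∈ cls Γ c, Z (Function.update κ c v) = 0) (A : Finset C) (c : C)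
    (hc : c ∉ A) : pS Γ ν t Z (insert c A) = pS Γ ν t Z A := by
  rw [← sub_eq_zero]
  unfold pS
  rw [← sum_sub_distrib]
  refine sum_eq_zero fun κ _ => ?_
  rw [← sum_sub_distrib]
  refine sum_slice Γ _ c fun κ' hκ' => ?_
  have hcc : Aᶜ = insert c (insert c A)ᶜ := by
    ext d
    simp only [mem_compl, mem_insert, not_or]
    by_cases hd : d = c
    · simp [hd, hc]
    · simp [hd]
  have hcn : c ∉ (insert c A)ᶜ := by simp
  have key : ∀ v, (∏ d ∈ insert c A, sV ν t (κ d) (Function.update κ' c v d)) *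
      (∏ d ∈ (insert c A)ᶜ, bV ν t (κ d) (Function.update κ' c v d)) *
        (Z κ * Z (Function.update κ' c v)) -
      (∏ d ∈ A, sV ν t (κ d) (Function.update κ' c v d)) *
      (∏ d ∈ Aᶜ, bV ν t (κ d) (Function.update κ' c v d)) *
        (Z κ * Z (Function.update κ' c v)) =
      ((∏ d ∈ A, sV ν t (κ d) (κ' d)) * (∏ d ∈ (insert c A)ᶜ, bV ν t (κ d) (κ' d)) *
        (t (κ c) * Z κ)) * Z (Function.update κ' c v) := by
    intro v
    rw [hcc, prod_insert hcn, prod_insert hc]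
    have e1 : ∏ d ∈ A, sV ν t (κ d) (Function.update κ' c v d) =
        ∏ d ∈ A, sV ν t (κ d) (κ' d) := prod_congr rfl fun d hd => by
      rw [Function.update_of_ne]
      rintro rfl
      exact hc hd
    have e2 : ∏ d ∈ (insert c A)ᶜ, bV ν t (κ d) (Function.update κ' c v d) =
        ∏ d ∈ (insert c A)ᶜ, bV ν t (κ d) (κ' d) := prod_congr rfl fun d hd => by
      rw [Function.update_of_ne]
      rintro rfl
      exact hcn hd
    rw [e1, e2]
    unfold sV
    ring
  rw [sum_congr rfl fun v _ => key v, ← mul_sum, h1 κ' hκ' c, mul_zero]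

theorem pS_eq (Γ : ColGraph V C) (ν : V → ℕ) (t : V → K) (Z : (C → V) → K)
    (h1 : ∀ κ ∈ rbw Γ, ∀ c, ∑ v ∈ cls Γ c, Z (Function.update κ c v) = 0) (A : Finset C) :
    pS Γ ν t Z A = pS Γ ν t Z ∅ := by
  induction A using Finset.induction_on with
  | empty => rfl
  | insert c A hc ih => rw [pS_insert Γ ν t Z h1 A c hc, ih]

/-- **The quadratic identity.** -/
theorem quad_identity (Γ : ColGraph V C) {ν : V → ℕ} (hν : Function.Injective ν) (t : V → K)
    (Z : (C → V) → K)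
    (h1 : ∀ κ ∈ rbw Γ, ∀ c, ∑ v ∈ cls Γ c, Z (Function.update κ c v) = 0) :
    ∑ κ ∈ rbw Γ, ∑ κ' ∈ rbw Γ, (∏ c, bV ν t (κ c) (κ' c)) * (Z κ * Z κ') =
      ∑ κ ∈ rbw Γ, (∏ c, t (κ c)) * Z κ ^ 2 := by
  classical
  have h2 := pS_eq Γ ν t Z h1 univ
  unfold pS at h2
  simp only [compl_univ, prod_empty, mul_one, compl_empty, one_mul] at h2
  rw [← h2, sum_symm]
  · refine sum_congr rfl fun κ _ => ?_
    simp only [sV_self]
    ring
  · intro κ _ κ' _
    rw [prod_congr rfl fun c _ => sV_symm hν t (κ c) (κ' c)]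
    ring

/-- a tuple is before another one -/
def Bef (ν : V → ℕ) (κ κ' : C → V) : Prop := ∀ c, ν (κ c) < ν (κ' c)

omit [DecidableEq V] [Fintype V] [DecidableEq C] [CharP K 2] in
open Classical in
theorem prod_bV (ν : V → ℕ) (t : V → K) (κ κ' : C → V) :
    ∏ c, bV ν t (κ c) (κ' c) = (if Bef ν κ κ' then 1 else 0) * ∏ c, (t (κ c) + t (κ' c)) := by
  by_cases h : Bef ν κ κ'
  · rw [if_pos h, one_mul]
    exact prod_congr rfl fun c _ => if_pos (h c)
  · rw [if_neg h, zero_mul]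
    unfold Bef at h
    push Not at h
    obtain ⟨c, hc⟩ := h
    exact prod_eq_zero (mem_univ c) (if_neg (by omega))

open Classical in
/-- **Pairs of tuples.** If the function `Bef κ κ' + Bef κ' κ` is of the form
`N κ κ' + N κ' κ` with finger moves `N`, the left side of the quadratic identity is zero. -/
theorem quad_zero [Nonempty C] (Γ : ColGraph V C) (ν : V → ℕ) (t : V → K) (Z : (C → V) → K)
    (h1 : ∀ κ ∈ rbw Γ, ∀ c, ∑ v ∈ cls Γ c, Z (Function.update κ c v) = 0)
    (h2 : ∀ κ ∈ rbw Γ, ∀ c, ∑ v ∈ cls Γ c, t v * Z (Function.update κ c v) = 0)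
    (g : Finset V → Finset V → K)
    (hg : ∀ κ ∈ rbw Γ, ∀ κ' ∈ rbw Γ, Z κ ≠ 0 → Z κ' ≠ 0 → (∀ c, κ c ≠ κ' c) →
      (if Bef ν κ κ' then (1 : K) else 0) + (if Bef ν κ' κ then 1 else 0) =
        ∑ c, g (img κ) (imgc κ' c) + ∑ c, g (img κ') (imgc κ c)) :
    ∑ κ ∈ rbw Γ, ∑ κ' ∈ rbw Γ, (∏ c, bV ν t (κ c) (κ' c)) * (Z κ * Z κ') = 0 := by
  let N : (C → V) → (C → V) → K := fun κ κ' => ∑ c, g (img κ) (imgc κ' c)
  let e : (C → V) → (C → V) → K := fun κ κ' => if Bef ν κ κ' then 1 else 0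
  let w : (C → V) → (C → V) → K := fun κ κ' => ∏ c, (t (κ c) + t (κ' c))
  have hw : ∀ κ κ', w κ κ' = w κ' κ := fun κ κ' => prod_congr rfl fun c _ => add_comm _ _
  have hA : ∑ κ ∈ rbw Γ, ∑ κ' ∈ rbw Γ, (e κ κ' + N κ κ') * w κ κ' * (Z κ * Z κ') = 0 := by
    rw [sum_symm]
    · refine sum_eq_zero fun κ _ => ?_
      have h3 : w κ κ = 0 := by
        obtain ⟨c⟩ := (inferInstance : Nonempty C)
        exact prod_eq_zero (mem_univ c) (CharTwo.add_self_eq_zero _)
      rw [h3]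
      ring
    · intro κ hκ κ' hκ'
      by_cases hZ : Z κ = 0
      · rw [hZ]
        ring
      by_cases hZ' : Z κ' = 0
      · rw [hZ']
        ring
      by_cases hne : ∀ c, κ c ≠ κ' c
      · have h3 : e κ κ' + e κ' κ = N κ κ' + N κ' κ := hg κ hκ κ' hκ' hZ hZ' hne
        have h4 : e κ κ' + N κ κ' = e κ' κ + N κ' κ := by
          have h5 := CharTwo.add_self_eq_zero (e κ' κ)
          have h6 := CharTwo.add_self_eq_zero (N κ κ')
          linear_combination h3 - h5 + h6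
        rw [h4, hw κ κ']
        ring
      · push Not at hne
        obtain ⟨c, hc⟩ := hne
        have h3 : w κ κ' = 0 := by
          refine prod_eq_zero (mem_univ c) ?_
          rw [hc]
          exact CharTwo.add_self_eq_zero _
        rw [hw κ' κ, h3]
        ring
  have hB : ∑ κ ∈ rbw Γ, ∑ κ' ∈ rbw Γ, N κ κ' * w κ κ' * (Z κ * Z κ') = 0 := by
    refine sum_eq_zero fun κ _ => ?_
    have h3 : ∑ κ' ∈ rbw Γ, N κ κ' * w κ κ' * (Z κ * Z κ') =
        ∑ c, ∑ κ' ∈ rbw Γ, g (img κ) (imgc κ' c) * w κ κ' * (Z κ * Z κ') := by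
      rw [sum_comm]
      refine sum_congr rfl fun κ' _ => ?_
      show (∑ c, g (img κ) (imgc κ' c)) * w κ κ' * (Z κ * Z κ') = _
      rw [sum_mul, sum_mul]
    rw [h3]
    refine sum_eq_zero fun c _ => sum_slice Γ _ c fun κ' hκ' => ?_
    have key : ∀ v, g (img κ) (imgc (Function.update κ' c v) c) * w κ (Function.update κ' c v) *
        (Z κ * Z (Function.update κ' c v)) =
        (g (img κ) (imgc κ' c) * (∏ d ∈ univ.erase c, (t (κ d) + t (κ' d))) * Z κ) *
          (t (κ c) * Z (Function.update κ' c v) + t v * Z (Function.update κ' c v)) := by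
      intro v
      have h4 : w κ (Function.update κ' c v) =
          (t (κ c) + t v) * ∏ d ∈ univ.erase c, (t (κ d) + t (κ' d)) := by
        show ∏ d, (t (κ d) + t (Function.update κ' c v d)) = _
        rw [← mul_prod_erase univ _ (mem_univ c), Function.update_self]
        congr 1
        refine prod_congr rfl fun d hd => ?_
        rw [Function.update_of_ne (mem_erase.1 hd).1]
      rw [imgc_update, h4]
      ring
    rw [sum_congr rfl fun v _ => key v, ← mul_sum, sum_add_distrib, ← mul_sum, h1 κ' hκ' c,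
      h2 κ' hκ' c, mul_zero, add_zero, mul_zero]
  have hC : ∑ κ ∈ rbw Γ, ∑ κ' ∈ rbw Γ, (∏ c, bV ν t (κ c) (κ' c)) * (Z κ * Z κ') +
      ∑ κ ∈ rbw Γ, ∑ κ' ∈ rbw Γ, N κ κ' * w κ κ' * (Z κ * Z κ') = 0 := by
    rw [← hA, ← sum_add_distrib]
    refine sum_congr rfl fun κ _ => ?_
    rw [← sum_add_distrib]
    refine sum_congr rfl fun κ' _ => ?_
    rw [prod_bV ν t κ κ']
    ring
  rw [hB, add_zero] at hC
  exact hC

end Pool.Agent.H85.VK
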