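import Pool.Agent.H4.Singer.JTop
import Pool.Agent.H4.Singer2.GAnBase

/-!
# Project VK: stresses of coloured complexes as functions on rainbow tuples
-/

set_option autoImplicit false

open Finset

namespace Pool.Agent.H85.VK

open Pool.Agent.H4.Singer

section Sum

variable {K : Type} [Field K] [CharP K 2]

/-- the sum of a symmetric matrix in characteristic two -/
theorem sum_symm {ι : Type} [DecidableEq ι] (s : Finset ι) (S : ι → ι → K)
    (h : ∀ x ∈ s, ∀ y ∈ s, S x y = S y x) : ∑ x ∈ s, ∑ y ∈ s, S x y = ∑ x ∈ s, S x x := by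
  induction s using Finset.induction_on with
  | empty => simp
  | insert a s ha ih =>
    have h1 := ih fun x hx y hy => h x (mem_insert_of_mem hx) y (mem_insert_of_mem hy)
    rw [sum_insert ha, sum_insert ha, sum_insert ha]
    have h2 : ∑ x ∈ s, ∑ y ∈ insert a s, S x y = ∑ x ∈ s, S x a + ∑ x ∈ s, ∑ y ∈ s, S x y := by
      rw [← sum_add_distrib]
      exact sum_congr rfl fun x _ => sum_insert ha
    have h3 : ∑ x ∈ s, S x a = ∑ x ∈ s, S a x :=
      sum_congr rfl fun x hx => h x (mem_insert_of_mem hx) a (mem_insert_self a s)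
    rw [h2, h1, h3]
    have h4 := CharTwo.add_self_eq_zero (∑ x ∈ s, S a x)
    linear_combination h4

end Sum

section Slice

variable {V C : Type} [DecidableEq V] [Fintype V] [DecidableEq C] [Fintype C] {K : Type} [Field K]

/-- the vertices of colour `c` -/
def cls (Γ : ColGraph V C) (c : C) : Finset V := univ.filter fun v => Γ.col v = c

theorem mem_cls {Γ : ColGraph V C} {c : C} {v : V} : v ∈ cls Γ c ↔ Γ.col v = c := by
  simp [cls]

/-- the rainbow tuples -/
def rbw (Γ : ColGraph V C) : Finset (C → V) := Fintype.piFinset (cls Γ)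

theorem mem_rbw {Γ : ColGraph V C} {κ : C → V} : κ ∈ rbw Γ ↔ ∀ c, Γ.col (κ c) = c := by
  simp [rbw, mem_cls]

theorem update_mem_rbw {Γ : ColGraph V C} {κ : C → V} (h : κ ∈ rbw Γ) {c : C} {v : V}
    (hv : Γ.col v = c) : Function.update κ c v ∈ rbw Γ := by
  rw [mem_rbw] at h ⊢
  intro c'
  by_cases hc : c' = c
  · subst hc
    rw [Function.update_self, hv]
  · rw [Function.update_of_ne hc, h]

/-- a sum over the tuples vanishes if the sums over the coordinate `c` vanish -/
theorem sum_slice (Γ : ColGraph V C) (f : (C → V) → K) (c : C)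
    (h : ∀ κ ∈ rbw Γ, ∑ v ∈ cls Γ c, f (Function.update κ c v) = 0) :
    ∑ κ ∈ rbw Γ, f κ = 0 := by
  rcases (cls Γ c).eq_empty_or_nonempty with h0 | ⟨v₀, hv₀⟩
  · rw [sum_eq_zero]
    intro κ hκ
    exfalso
    have h1 : κ c ∈ cls Γ c := mem_cls.2 (mem_rbw.1 hκ c)
    rw [h0] at h1
    exact notMem_empty _ h1
  · rw [mem_cls] at hv₀
    rw [← sum_fiberwise_of_maps_to (g := fun κ => Function.update κ c v₀) (t := rbw Γ)
      fun κ hκ => update_mem_rbw hκ hv₀]
    refine sum_eq_zero fun b hb => ?_
    by_cases hbc : b c = v₀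
    · rw [← h b hb]
      symm
      refine sum_bij (fun v _ => Function.update b c v) ?_ ?_ ?_ ?_
      · intro v hv
        rw [mem_filter]
        refine ⟨update_mem_rbw hb (mem_cls.1 hv), ?_⟩
        rw [Function.update_idem, ← hbc, Function.update_eq_self]
      · intro v _ w _ hvw
        have h1 := congrFun hvw c
        rwa [Function.update_self, Function.update_self] at h1
      · intro κ hκ
        rw [mem_filter] at hκ
        refine ⟨κ c, mem_cls.2 (mem_rbw.1 hκ.1 c), ?_⟩
        rw [← hκ.2, Function.update_idem, Function.update_eq_self]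
      · intro v _
        rfl
    · refine sum_eq_zero fun κ hκ => ?_
      exfalso
      rw [mem_filter] at hκ
      apply hbc
      rw [← hκ.2, Function.update_self]

/-- the face of a tuple -/
def img (κ : C → V) : Finset V := univ.image κ

/-- the face of a tuple without the coordinate `c` -/
def imgc (κ : C → V) (c : C) : Finset V := (univ.erase c).image κ

omit [Fintype V] in
theorem img_update (κ : C → V) (c : C) (v : V) :
    img (Function.update κ c v) = insert v (imgc κ c) := by
  unfold img imgc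
  ext w
  simp only [mem_image, mem_univ, true_and, mem_insert, mem_erase]
  constructor
  · rintro ⟨c', rfl⟩
    by_cases hc : c' = c
    · subst hc
      exact Or.inl (Function.update_self ..)
    · right
      exact ⟨c', ⟨hc, trivial⟩, (Function.update_of_ne hc ..).symm⟩
  · rintro (rfl | ⟨c', ⟨hc, _⟩, rfl⟩)
    · exact ⟨c, Function.update_self ..⟩
    · exact ⟨c', Function.update_of_ne hc ..⟩

omit [Fintype V] in
theorem imgc_update (κ : C → V) (c : C) (v : V) :
    imgc (Function.update κ c v) c = imgc κ c := by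
  unfold imgc
  refine image_congr fun c' hc' => ?_
  rw [mem_coe, mem_erase] at hc'
  exact Function.update_of_ne hc'.1 ..

theorem rbw_inj {Γ : ColGraph V C} {κ : C → V} (h : κ ∈ rbw Γ) : Function.Injective κ := by
  rw [mem_rbw] at h
  intro a b hab
  rw [← h a, ← h b, hab]

theorem img_erase {Γ : ColGraph V C} {κ : C → V} (h : κ ∈ rbw Γ) (c : C) :
    (img κ).erase (κ c) = imgc κ c := by
  unfold img imgc
  rw [image_erase (rbw_inj h)]

theorem sum_img {Γ : ColGraph V C} {κ : C → V} (h : κ ∈ rbw Γ) {M : Type} [AddCommMonoid M]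
    (f : V → M) : ∑ v ∈ img κ, f v = ∑ c, f (κ c) := by
  unfold img
  exact sum_image fun a _ b _ hab => rbw_inj h hab

theorem prod_img {Γ : ColGraph V C} {κ : C → V} (h : κ ∈ rbw Γ) {M : Type} [CommMonoid M]
    (f : V → M) : ∏ v ∈ img κ, f v = ∏ c, f (κ c) := by
  unfold img
  exact prod_image fun a _ b _ hab => rbw_inj h hab

/-- the stress equations in terms of tuples -/
theorem stress_slice {Γ : ColGraph V C} {n : ℕ} {z : Finset V → K}
    (hz : ∀ φ, z φ ≠ 0 → φ ∈ clq Γ univ n) (a : V → K)
    (h : ∀ τ, ∑ v ∈ τᶜ, a v * z (insert v τ) = 0) {κ : C → V} (hκ : κ ∈ rbw Γ) (c : C) :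
    ∑ v ∈ cls Γ c, a v * z (img (Function.update κ c v)) = 0 := by
  rw [← h (imgc κ c)]
  simp only [img_update]
  refine sum_subset ?_ ?_
  · intro v hv
    rw [mem_cls] at hv
    rw [mem_compl]
    intro h1
    unfold imgc at h1
    rw [mem_image] at h1
    obtain ⟨c', hc', rfl⟩ := h1
    rw [mem_erase] at hc'
    rw [mem_rbw.1 hκ] at hv
    exact hc'.1 hv
  · intro v hv hv'
    rw [mem_cls] at hv'
    rw [mem_compl] at hv
    have h1 : z (insert v (imgc κ c)) = 0 := by
      by_contra h2
      have h3 := (mem_clq.1 (hz _ h2)).2.1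
      have h4 : κ (Γ.col v) ∈ imgc κ c := by
        unfold imgc
        exact mem_image_of_mem κ (mem_erase.2 ⟨hv', mem_univ _⟩)
      have h5 : v ≠ κ (Γ.col v) := by
        intro h6
        rw [← h6] at h4
        exact hv h4
      exact Γ.ne _ _ (h3 v (mem_insert_self _ _) _ (mem_insert_of_mem h4) h5)
        (mem_rbw.1 hκ (Γ.col v)).symm
    rw [h1, mul_zero]

/-- rainbow faces are faces of tuples -/
theorem exists_rbw {Γ : ColGraph V C} {φ : Finset V} (hφ : φ ∈ clq Γ univ (Fintype.card C)) :
    ∃ κ ∈ rbw Γ, img κ = φ := by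
  obtain ⟨_, hcl, hcard⟩ := mem_clq.1 hφ
  have hinj : Set.InjOn Γ.col φ := by
    intro u hu v hv huv
    by_contra hne
    exact Γ.ne u v (hcl u hu v hv hne) huv
  have himg : φ.image Γ.col = univ := by
    rw [← card_eq_iff_eq_univ, card_image_of_injOn hinj, hcard]
  have h1 : ∀ c, ∃ v ∈ φ, Γ.col v = c := by
    intro c
    have h2 : c ∈ φ.image Γ.col := by
      rw [himg]
      exact mem_univ c
    exact mem_image.1 h2
  choose κ hκ hκc using h1
  refine ⟨κ, mem_rbw.2 hκc, ?_⟩
  unfold img
  ext v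
  rw [mem_image]
  constructor
  · rintro ⟨c, _, rfl⟩
    exact hκ c
  · intro hv
    exact ⟨Γ.col v, mem_univ _, hinj (hκ _) hv (hκc _)⟩

theorem img_injOn (Γ : ColGraph V C) : Set.InjOn img (rbw Γ : Set (C → V)) := by
  intro κ hκ κ' hκ' h
  rw [mem_coe, mem_rbw] at hκ hκ'
  funext c
  have h1 : κ c ∈ img κ' := by
    rw [← h]
    exact mem_image_of_mem κ (mem_univ c)
  unfold img at h1
  rw [mem_image] at h1
  obtain ⟨c', _, hc'⟩ := h1
  have h2 : c' = c := by rw [← hκ' c', hc', hκ]
  rw [← hc', h2]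

end Slice

end Pool.Agent.H85.VK
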