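import Pool.Agent.H85.VK.Defs

/-!
# Project VK: complements of faces in homology spheres are acyclic
-/

set_option autoImplicit false

open Finset

namespace Pool.Agent.H85.VK

variable {W : Type} [DecidableEq W]

theorem z2_self (x : ZMod 2) : x + x = 0 := by
  revert x
  decide

/-- the faces disjoint from `A` -/
def rst (K : Set (Finset W)) (A : Finset W) : Set (Finset W) := {τ | τ ∈ K ∧ Disjoint τ A}

/-- all reduced cohomology vanishes -/
def Acyc (K : Set (Finset W)) : Prop := ∀ j f, Cocycle K j f → Cobound K j f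

theorem Cobound.add {K : Set (Finset W)} {j : ℕ} {f g : Finset W → ZMod 2} (hf : Cobound K j f)
    (hg : Cobound K j g) : Cobound K j fun τ => f τ + g τ := by
  obtain ⟨a, ha⟩ := hf
  obtain ⟨b, hb⟩ := hg
  refine ⟨fun τ => a τ + b τ, fun τ hτ hj => ?_⟩
  simp only [sum_add_distrib]
  rw [ha τ hτ hj, hb τ hτ hj]

theorem Cobound.congr {K : Set (Finset W)} {j : ℕ} {f g : Finset W → ZMod 2}
    (hf : Cobound K j f) (h : ∀ τ ∈ K, τ.card = j → f τ = g τ) : Cobound K j g := by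
  obtain ⟨a, ha⟩ := hf
  exact ⟨a, fun τ hτ hj => by rw [← h τ hτ hj, ha τ hτ hj]⟩

theorem Cobound.zero (K : Set (Finset W)) (j : ℕ) : Cobound K j fun _ => 0 :=
  ⟨fun _ => 0, fun τ _ _ => by simp⟩

theorem Cobound.sum {K : Set (Finset W)} {j : ℕ} {ι : Type} (s : Finset ι)
    (f : ι → Finset W → ZMod 2) (h : ∀ i ∈ s, Cobound K j (f i)) :
    Cobound K j fun τ => ∑ i ∈ s, f i τ := by
  classical
  induction s using Finset.induction_on with
  | empty => exact (Cobound.zero K j).congr fun τ _ _ => by simp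
  | insert a s ha ih =>
    refine ((h a (mem_insert_self a s)).add
      (ih fun i hi => h i (mem_insert_of_mem hi))).congr fun τ _ _ => ?_
    rw [sum_insert ha]

theorem lnk_empty (K : Set (Finset W)) : lnk K ∅ = K := by
  ext τ
  simp [lnk]

/-- the link of `v` as a set of faces: `τ ∪ {v}` is `insert v τ` -/
theorem mem_lnk_single {K : Set (Finset W)} {v : W} {τ : Finset W} :
    τ ∈ lnk K {v} ↔ v ∉ τ ∧ insert v τ ∈ K := by
  unfold lnk
  rw [Set.mem_ofPred_eq, disjoint_singleton_right, union_comm, ← insert_eq]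

/-- extension of a cochain `m` of the link of `v` and of `f` on the faces without `v` -/
def ext (v : W) (m f : Finset W → ZMod 2) : Finset W → ZMod 2 :=
  fun τ => if v ∈ τ then m (τ.erase v) else f τ

theorem ext_sum_notMem {v : W} (m f : Finset W → ZMod 2) {τ : Finset W} (hv : v ∉ τ) :
    ∑ u ∈ τ, ext v m f (τ.erase u) = ∑ u ∈ τ, f (τ.erase u) :=
  sum_congr rfl fun _ _ => if_neg fun h => hv (mem_of_mem_erase h)

theorem ext_sum_mem {v : W} (m f : Finset W → ZMod 2) {τ : Finset W} (hv : v ∈ τ) :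
    ∑ u ∈ τ, ext v m f (τ.erase u) =
      f (τ.erase v) + ∑ u ∈ τ.erase v, m ((τ.erase v).erase u) := by
  rw [← add_sum_erase τ _ hv]
  congr 1
  · exact if_neg (notMem_erase v τ)
  · refine sum_congr rfl fun u hu => ?_
    rw [mem_erase] at hu
    unfold ext
    rw [if_pos (mem_erase.2 ⟨hu.1.symm, hv⟩), erase_right_comm]

/-- coboundaries of the link of `v` are coboundaries of `K` on the faces containing `v` -/
theorem Cobound.of_lnk {K : Set (Finset W)} {v : W} {j : ℕ} {f : Finset W → ZMod 2}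
    (h : Cobound (lnk K {v}) j f) :
    Cobound K (j + 1) fun τ => if v ∈ τ then f (τ.erase v) else 0 := by
  obtain ⟨m, hm⟩ := h
  refine ⟨ext v m fun _ => 0, fun τ hτ hj => ?_⟩
  show (if v ∈ τ then f (τ.erase v) else 0) = _
  by_cases hv : v ∈ τ
  · rw [if_pos hv, ext_sum_mem m _ hv, zero_add]
    refine hm _ (mem_lnk_single.2 ⟨notMem_erase v τ, by rwa [insert_erase hv]⟩) ?_
    rw [card_erase_of_mem hv, hj]
    rfl
  · rw [if_neg hv, ext_sum_notMem m _ hv]
    simp

/-- a cocycle of the complement of `v` whose restriction to the link is a coboundary extends to a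
cocycle -/
theorem extend_cocycle {K : Set (Finset W)} {v : W} {j : ℕ}
    {f : Finset W → ZMod 2} (hf : Cocycle (rst K {v}) j f) (hl : Cobound (lnk K {v}) j f) :
    ∃ m : Finset W → ZMod 2, Cocycle K j (ext v m f) := by
  obtain ⟨m, hm⟩ := hl
  refine ⟨m, fun τ hτ hj => ?_⟩
  by_cases hv : v ∈ τ
  · rw [ext_sum_mem m _ hv]
    rw [hm _ (mem_lnk_single.2 ⟨notMem_erase v τ, by rwa [insert_erase hv]⟩)]
    · exact z2_self _
    · rw [card_erase_of_mem hv, hj]
      rfl
  · rw [ext_sum_notMem m _ hv]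
    exact hf τ ⟨hτ, disjoint_singleton_right.2 hv⟩ hj

/-- the restriction of a cocycle to the link is a cocycle -/
theorem Cocycle.lnk {K : Set (Finset W)} (hd : ∀ σ ∈ K, ∀ τ ⊆ σ, τ ∈ K) {v : W} {j : ℕ}
    {f : Finset W → ZMod 2} (hf : Cocycle (rst K {v}) j f) : Cocycle (lnk K {v}) j f := by
  intro τ hτ hj
  rw [mem_lnk_single] at hτ
  exact hf τ ⟨hd _ hτ.2 _ (subset_insert v τ), disjoint_singleton_right.2 hτ.1⟩ hj

theorem Cobound.of_ext {K : Set (Finset W)} {v : W} {j : ℕ} {m f : Finset W → ZMod 2}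
    (h : Cobound K j (ext v m f)) : Cobound (rst K {v}) j f := by
  obtain ⟨g, hg⟩ := h
  refine ⟨g, fun τ hτ hj => ?_⟩
  rw [← hg τ hτ.1 hj]
  exact (if_neg (disjoint_singleton_right.1 hτ.2)).symm

/-- deleting a vertex with acyclic link from an acyclic complex -/
theorem acyc_rst_single {K : Set (Finset W)} (hd : ∀ σ ∈ K, ∀ τ ⊆ σ, τ ∈ K) {v : W}
    (hK : Acyc K) (hL : Acyc (lnk K {v})) : Acyc (rst K {v}) := by
  intro j f hf
  obtain ⟨m, hm⟩ := extend_cocycle hf (hL j f (hf.lnk hd))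
  exact (hK j _ hm).of_ext

/-! ## Spheres -/

theorem lnk_lnk (K : Set (Finset W)) {σ τ : Finset W} (h : Disjoint τ σ) :
    lnk (lnk K σ) τ = lnk K (τ ∪ σ) := by
  ext ρ
  unfold lnk
  simp only [Set.mem_ofPred_eq, disjoint_union_left, disjoint_union_right, union_assoc]
  constructor
  · rintro ⟨h1, ⟨h2, _⟩, h3⟩
    exact ⟨⟨h1, h2⟩, h3⟩
  · rintro ⟨⟨h1, h2⟩, h3⟩
    exact ⟨h1, ⟨h2, h⟩, h3⟩

theorem IsF2Sphere.lnk {K : Set (Finset W)} {n : ℕ} (h : IsF2Sphere K n) {σ : Finset W}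
    (hσ : σ ∈ K) {m : ℕ} (hm : m + σ.card = n) : IsF2Sphere (lnk K σ) m where
  empty := ⟨disjoint_empty_left σ, by rwa [empty_union]⟩
  down := fun τ hτ ρ hρ => ⟨disjoint_of_subset_left hρ hτ.1,
    h.down _ hτ.2 _ (union_subset_union_left hρ)⟩
  exact := fun τ hτ j hj f hf => by
    rw [lnk_lnk K hτ.1] at hf ⊢
    refine h.exact _ hτ.2 j ?_ f hf
    rw [card_union_of_disjoint hτ.1]
    omega
  top := fun τ hτ j hj => by
    rw [lnk_lnk K hτ.1]
    refine h.top _ hτ.2 j ?_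
    rw [card_union_of_disjoint hτ.1]
    omega

/-- the indicator function of a face -/
def ind (τ : Finset W) : Finset W → ZMod 2 := fun ρ => if ρ = τ then 1 else 0

variable [Fintype W]

/-- every face is in a face with `n` vertices -/
theorem IsF2Sphere.exists_facet {K : Set (Finset W)} {n : ℕ} (h : IsF2Sphere K n)
    {σ : Finset W} (hσ : σ ∈ K) : ∃ τ ∈ K, σ ⊆ τ ∧ τ.card = n := by
  classical
  obtain ⟨τ, hτ, hmax⟩ := exists_maximal (s := univ.filter fun τ => τ ∈ K ∧ σ ⊆ τ)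
    ⟨σ, by simp [hσ]⟩
  rw [mem_filter] at hτ
  refine ⟨τ, hτ.2.1, hτ.2.2, ?_⟩
  by_contra hne
  have h1 : ∀ ρ ∈ VK.lnk K τ, ρ = ∅ := by
    intro ρ hρ
    have h2 : ρ ∪ τ ≤ τ :=
      hmax (mem_filter.2 ⟨mem_univ _, hρ.2, hτ.2.2.trans subset_union_right⟩) subset_union_right
    have h3 : ρ ⊆ τ := (subset_union_left).trans h2
    rw [← Finset.disjoint_self_iff_empty]
    exact disjoint_of_subset_right h3 hρ.1
  obtain ⟨g, hg⟩ := h.exact τ hτ.2.1 0 (by omega) (fun _ => 1) fun ρ hρ hc => by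
    rw [h1 ρ hρ] at hc
    simp at hc
  have h4 := hg ∅ ⟨disjoint_empty_left τ, by rw [empty_union]; exact hτ.2.1⟩ card_empty
  simp at h4

theorem IsF2Sphere.card_le {K : Set (Finset W)} {n : ℕ} (h : IsF2Sphere K n)
    {σ : Finset W} (hσ : σ ∈ K) : σ.card ≤ n := by
  obtain ⟨τ, _, h1, h2⟩ := h.exists_facet hσ
  rw [← h2]
  exact card_le_card h1

end Pool.Agent.H85.VK
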